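import Pool.Agent.V5helper99.HR.Exp
import Pool.Agent.H342R3.Tig.GRD

/-!
# Cutting a closed lattice path into few small pieces
-/

set_option autoImplicit false
set_option maxHeartbeats 4000000

namespace Pool.Agent.V5helper99.HR

open H974 H342P H342P.Plain H342L H984P Finset H342T

/-- Two arms and rotation. -/
theorem tw_rot {v : Vtx} {h : ℤ} {F : Finset Edg} (H : Tw v h (↑F : Set Edg)) :
    Tw (rV v) h (↑(rM F) : Set Edg) := by
  obtain ⟨f, hf, ⟨w, hw1, hw2⟩, g, hg1, hg2⟩ := H
  refine ⟨rF f, ?_, ⟨rV w, ?_, ?_⟩, rF g, ?_, ?_⟩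
  · simp only [Inc, rV, rF, Equiv.coe_fn_mk] at hf ⊢
    omega
  · simp only [Far, rV, Equiv.coe_fn_mk] at hw1 ⊢
    omega
  · rw [rot_reach]; exact hw2
  · simp only [FarF, inF, rV, rF, Equiv.coe_fn_mk] at hg1 ⊢
    omega
  · rw [rot_dreach]; exact hg2

theorem twA_rot {n : ℕ} {b c H : ℤ} {F : Finset Edg} {v : Vtx} (h : TwA n b c H F v) :
    TwA n (-(c + n)) b H (rM F) (rV v) := by
  intro h' h1 h2 h3 h4 h5 h6
  apply tw_rot
  simp only [rV, Equiv.coe_fn_mk] at h3 h4 h5 h6
  exact h h' h1 h2 (by omega) (by omega) (by omega) (by omega)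

/-- Number of the local strands in the four directions. -/
noncomputable def N4L (n a : ℕ) (H : ℤ) (F : Finset Edg) : ℕ :=
  NSL n a 0 0 H F + NSL n a (-n) 0 H (rM F) + NSL n a (-n) (-n) H (rM (rM F)) +
    NSL n a 0 (-n) H (rM (rM (rM F)))

/-- The strand inside a piece which ends to the right. -/
theorem cut_right {n a : ℕ} (ha : 1 ≤ a) {b c : ℤ} {F : Finset Edg} {σ : St} {t : ℕ}
    (hin : ∀ s, H974.inR b (b + n) c (c + n) (orb (↑F) σ s).1)
    (hf : ∀ s < t, ¬ Far σ.1 (4 * a + 2) (orb (↑F) σ s).1)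
    (hx : (orb (↑F) σ t).1.1 = σ.1.1 + (4 * a + 2)) :
    ∃ x ∈ (Finset.range (n / a + 2) ×ˢ Finset.Icc c (c + n)), ∃ s' < t,
      orb (↑F) σ s' = st0 (b + x.1 * a) x.2 ∧ LS a (b + x.1 * a) x.2 F := by
  have ha1 : (1:ℤ) ≤ a := by exact_mod_cast ha
  have h0 := hin 0
  rw [orb_zero] at h0
  obtain ⟨i, hi, hA1, hA2⟩ := LS_line (n := n) (a := a) ha (b := b) (x := σ.1.1) h0.1.1 h0.1.2
  obtain ⟨y0, Y, T, s0, hs0, hst, hT, hloc⟩ := exit_strand2 (F := ↑F) hf hx
    (A := b + (i:ℤ) * a) (X := b + (i:ℤ) * a + 3 * a) hA1 (by omega) (by omega)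
  have hT0 : T ≠ 0 := by
    rintro rfl
    have h1 := hst.tip
    rw [orb_zero] at h1
    have h2 := congrArg (fun τ : St => τ.1.1) h1
    simp only [st0] at h2
    omega
  have hb := hin s0
  rw [hs0] at hb
  refine ⟨(i, y0), ?_, s0, by omega, hs0, Y, T, hst, fun s hs => ?_⟩
  · rw [Finset.mem_product, Finset.mem_Icc]
    exact ⟨hi, hb.2⟩
  · have h1 := abs_le.1 (hloc s hs)
    have h2 : |y0 - σ.1.2| ≤ 4 * a + 2 := hloc 0 (Nat.zero_le _)
    rw [abs_le] at h2
    show |(orb (↑F) (st0 (b + (i:ℤ) * a) y0) s).1.2 - y0| ≤ 8 * a + 4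
    rw [abs_le]
    omega

/-- The piece `i` contains a local strand of the configuration `F` starting at a state `g s'`. -/
def CD (n a : ℕ) (b c : ℤ) (F : Finset Edg) (g : ℕ → St) (s : ℕ → ℕ) (i : ℕ) : Prop :=
  ∃ x ∈ (Finset.range (n / a + 2) ×ˢ Finset.Icc c (c + n)), ∃ s',
      s i ≤ s' ∧ s' < s (i + 1) ∧ g s' = st0 (b + x.1 * a) x.2 ∧ LS a (b + x.1 * a) x.2 F

/-- The number of pieces of one kind. -/
theorem cut_count {n a : ℕ} {b c H : ℤ} {F : Finset Edg} {g : ℕ → St} {N k : ℕ} {s : ℕ → ℕ}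
    (hs : ∀ i < k, s i < s (i + 1)) (hsN : s k ≤ N)
    (hg : ∀ u v, u < N → v < N → g u = g v → u = v) (hT : ∀ u, TwA n b c H F (g u).1)
    (I : Finset ℕ) (hI : ∀ i ∈ I, i < k ∧ CD n a b c F g s i) :
    I.card ≤ NSL n a b c H F := by
  classical
  have hmono : ∀ i j, i ≤ j → j ≤ k → s i ≤ s j := by
    intro i j hij
    induction j, hij using Nat.le_induction with
    | base => intro _; exact le_rfl
    | succ j hij ih =>
      intro hjk
      exact (ih (by omega)).trans (hs j (by omega)).le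
  have hI2 := fun i hi => (hI i hi).2
  unfold CD at hI2
  choose! x hx s' h1 h2 h3 h4 using hI2
  unfold NSL
  refine Finset.card_le_card_of_injOn x ?_ ?_
  · intro i hi
    rw [Finset.mem_coe] at hi
    rw [Finset.mem_coe, Finset.mem_filter]
    refine ⟨hx i hi, h4 i hi, ?_⟩
    have h5 := hT (s' i)
    rw [h3 i hi] at h5
    exact h5
  · intro i hi j hj hij
    rw [Finset.mem_coe] at hi hj
    have e : g (s' i) = g (s' j) := by rw [h3 i hi, h3 j hj, hij]
    have hik := (hI i hi).1
    have hjk := (hI j hj).1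
    have bi : s (i + 1) ≤ N := (hmono (i + 1) k (by omega) le_rfl).trans hsN
    have bj : s (j + 1) ≤ N := (hmono (j + 1) k (by omega) le_rfl).trans hsN
    have a1 := h1 i hi
    have a2 := h2 i hi
    have a3 := h1 j hj
    have a4 := h2 j hj
    have e2 := hg _ _ (by omega) (by omega) e
    rcases lt_trichotomy i j with h | h | h
    · exfalso
      have := hmono (i + 1) j (by omega) (by omega)
      omega
    · exact h
    · exfalso
      have := hmono (j + 1) i (by omega) (by omega)
      omega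

theorem cut_dir {n a : ℕ} (ha : 1 ≤ a) {b c : ℤ} {F : Finset Edg} {τ : St} {g : ℕ → St}
    {s : ℕ → ℕ} {i t : ℕ} (ht : t ≤ s (i + 1) - s i)
    (hg : ∀ u, orb (↑F) τ u = g (u + s i))
    (hin : ∀ u, H974.inR b (b + n) c (c + n) (g u).1)
    (hf : ∀ u < t, ¬ Far τ.1 (4 * a + 2) (orb (↑F) τ u).1)
    (hx : (orb (↑F) τ t).1.1 = τ.1.1 + (4 * a + 2)) : CD n a b c F g s i := by
  obtain ⟨x, hx, s', hs', h1, h2⟩ := cut_right ha (fun u => by rw [hg]; exact hin _) hf hx
  exact ⟨x, hx, s' + s i, by omega, by omega, by rw [← hg]; exact h1, h2⟩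

theorem cut_main (hP : St_POL) (n a : ℕ) (H : ℤ) (F : Finset Edg) (σ : St) (N : ℕ) (hn : 0 < n)
    (ha : 1 ≤ a) (hin : ∀ s, H974.inR 0 n 0 n (orb (↑F) σ s).1) (hN : 0 < N)
    (hper : orb (↑F) σ N = σ) (hmin : ∀ j, 0 < j → j < N → orb (↑F) σ j ≠ σ)
    (hT : ∀ u, TwA n 0 0 H F (orb (↑F) σ u).1) :
    Cut (N4L n a H F + 1) ((12 * a + 6) / n) (poly (fun j => pt n (orb (↑F) σ j).1) N) := by
  classical
  have hT1 : ∀ u, TwA n (-n) 0 H (rM F) (rS (orb (↑F) σ u)).1 := by
    intro u
    have := twA_rot (hT u)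
    rw [zero_add] at this
    exact this
  have hT2 : ∀ u, TwA n (-n) (-n) H (rM (rM F)) (rS (rS (orb (↑F) σ u))).1 := by
    intro u
    have := twA_rot (hT1 u)
    rw [zero_add] at this
    exact this
  have hT3 : ∀ u, TwA n 0 (-n) H (rM (rM (rM F))) (rS (rS (rS (orb (↑F) σ u)))).1 := by
    intro u
    have := twA_rot (hT2 u)
    rw [neg_add_cancel, neg_zero] at this
    exact this
  have hdist : ∀ u v, u < N → v < N → orb (↑F : Set Edge) σ u = orb (↑F) σ v → u = v := by
    have key : ∀ u v, u ≤ v → v < N → orb (↑F : Set Edge) σ u = orb (↑F) σ v → u = v := by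
      intro u v huv hv h
      have hinj : Function.Injective ((nxt (↑F : Set Edge))^[u]) := (nxt_bij _).1.iterate u
      have e : orb (↑F : Set Edge) σ v = orb (↑F : Set Edge) (orb (↑F : Set Edge) σ (v - u)) u := by
        rw [← orb_add]
        congr 1
        omega
      rw [e] at h
      have h2 : σ = orb (↑F : Set Edge) σ (v - u) := hinj h
      by_contra hne
      exact hmin (v - u) (by omega) (by omega) h2.symm
    intro u v hu hv h
    rcases le_total u v with h1 | h1
    · exact key u v h1 hv h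
    · exact (key v u h1 hu h.symm).symm
  have ha1 : (1:ℤ) ≤ a := by exact_mod_cast ha
  obtain ⟨k, s, hs0, hs1, hs2, hs3⟩ := GRD_greedy
    (fun u v => Far (orb (↑F : Set Edge) σ u).1 (4 * a + 2) (orb (↑F) σ v).1) N
    (by intro u; unfold Far; omega) N 0 (Nat.zero_le _) (by omega)
  have hrS : Function.Injective rS := by
    intro x y h
    unfold rS at h
    rw [Prod.mk.injEq] at h
    obtain ⟨h1, h2⟩ := h
    apply Prod.ext (rV.injective h1)
    revert h2
    cases x.2 <;> cases y.2 <;> simp [rQ]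
  -- the four kinds of pieces
  have hcase : ∀ i < k, CD n a 0 0 F (fun u => orb (↑F) σ u) s i ∨
      CD n a (-n) 0 (rM F) (fun u => rS (orb (↑F) σ u)) s i ∨
      CD n a (-n) (-n) (rM (rM F)) (fun u => rS (rS (orb (↑F) σ u))) s i ∨
      CD n a 0 (-n) (rM (rM (rM F))) (fun u => rS (rS (rS (orb (↑F) σ u)))) s i := by
    intro i hi
    obtain ⟨h1, h2, _⟩ := hs1 i hi
    set τ := orb (↑F : Set Edge) σ (s i) with hτ
    have horb : ∀ u, orb (↑F : Set Edge) τ u = orb (↑F) σ (u + s i) := by
      intro u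
      rw [orb_add]
    have h3 : Far τ.1 (4 * a + 2) (orb (↑F : Set Edge) τ (s (i + 1) - s i)).1 := by
      rw [horb, Nat.sub_add_cancel h1.le]
      exact h2
    obtain ⟨t, ht, hf, hex⟩ := first_far2 (by omega) h3
    rcases hex with h | h | h | h
    · left
      refine cut_dir ha ht horb ?_ hf h
      intro u
      simpa using hin u
    · right; right; right
      refine cut_dir (τ := rS (rS (rS τ))) ha ht ?_ ?_ ?_ ?_
      · intro u
        rw [rot_orb, rot_orb, rot_orb, horb]
      · intro u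
        have := hin u
        simp only [H974.inR, rS, rV, Equiv.coe_fn_mk] at this ⊢
        omega
      · intro u hu
        rw [rot_orb, rot_orb, rot_orb]
        have := hf u hu
        simp only [Far, rS, rV, Equiv.coe_fn_mk] at this ⊢
        omega
      · rw [rot_orb, rot_orb, rot_orb]
        simp only [rS, rV, Equiv.coe_fn_mk]
        omega
    · right; right; left
      refine cut_dir (τ := rS (rS τ)) ha ht ?_ ?_ ?_ ?_
      · intro u
        rw [rot_orb, rot_orb, horb]
      · intro u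
        have := hin u
        simp only [H974.inR, rS, rV, Equiv.coe_fn_mk] at this ⊢
        omega
      · intro u hu
        rw [rot_orb, rot_orb]
        have := hf u hu
        simp only [Far, rS, rV, Equiv.coe_fn_mk] at this ⊢
        omega
      · rw [rot_orb, rot_orb]
        simp only [rS, rV, Equiv.coe_fn_mk]
        omega
    · right; left
      refine cut_dir (τ := rS τ) ha ht ?_ ?_ ?_ ?_
      · intro u
        rw [rot_orb, horb]
      · intro u
        have := hin u
        simp only [H974.inR, rS, rV, Equiv.coe_fn_mk] at this ⊢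
        omega
      · intro u hu
        rw [rot_orb]
        have := hf u hu
        simp only [Far, rS, rV, Equiv.coe_fn_mk] at this ⊢
        omega
      · rw [rot_orb]
        simp only [rS, rV, Equiv.coe_fn_mk]
        omega
  -- the number of pieces
  have hlt : ∀ i < k, s i < s (i + 1) := fun i hi => (hs1 i hi).1
  have hk : k ≤ N4L n a H F := by
    have c0 := cut_count (n := n) (a := a) (b := 0) (c := 0) (F := F) hlt hs3 hdist hT
      ((Finset.range k).filter (fun i => CD n a 0 0 F (fun u => orb (↑F) σ u) s i))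
      (fun i hi => by
        rw [Finset.mem_filter, Finset.mem_range] at hi
        exact hi)
    have c1 := cut_count (n := n) (a := a) (b := -n) (c := 0) (F := rM F)
      (g := fun u => rS (orb (↑F) σ u)) hlt hs3 (fun u v hu hv h => hdist u v hu hv (hrS h)) hT1
      ((Finset.range k).filter (fun i => CD n a (-n) 0 (rM F) (fun u => rS (orb (↑F) σ u)) s i))
      (fun i hi => by
        rw [Finset.mem_filter, Finset.mem_range] at hi
        exact hi)
    have c2 := cut_count (n := n) (a := a) (b := -n) (c := -n) (F := rM (rM F))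
      (g := fun u => rS (rS (orb (↑F) σ u))) hlt hs3
      (fun u v hu hv h => hdist u v hu hv (hrS (hrS h))) hT2
      ((Finset.range k).filter (fun i => CD n a (-n) (-n) (rM (rM F))
        (fun u => rS (rS (orb (↑F) σ u))) s i))
      (fun i hi => by
        rw [Finset.mem_filter, Finset.mem_range] at hi
        exact hi)
    have c3 := cut_count (n := n) (a := a) (b := 0) (c := -n) (F := rM (rM (rM F)))
      (g := fun u => rS (rS (rS (orb (↑F) σ u)))) hlt hs3
      (fun u v hu hv h => hdist u v hu hv (hrS (hrS (hrS h)))) hT3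
      ((Finset.range k).filter (fun i => CD n a 0 (-n) (rM (rM (rM F)))
        (fun u => rS (rS (rS (orb (↑F) σ u)))) s i))
      (fun i hi => by
        rw [Finset.mem_filter, Finset.mem_range] at hi
        exact hi)
    have hsub : Finset.range k ⊆
        (((Finset.range k).filter (fun i => CD n a 0 0 F (fun u => orb (↑F) σ u) s i) ∪
        (Finset.range k).filter (fun i => CD n a (-n) 0 (rM F) (fun u => rS (orb (↑F) σ u)) s i))
        ∪ (Finset.range k).filter (fun i => CD n a (-n) (-n) (rM (rM F))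
        (fun u => rS (rS (orb (↑F) σ u))) s i)) ∪
        (Finset.range k).filter (fun i => CD n a 0 (-n) (rM (rM (rM F)))
        (fun u => rS (rS (rS (orb (↑F) σ u)))) s i) := by
      intro i hi
      have h := hcase i (Finset.mem_range.1 hi)
      simp only [Finset.mem_union, Finset.mem_filter]
      tauto
    have h1 := Finset.card_le_card hsub
    rw [Finset.card_range] at h1
    have h2 := Finset.card_union_le
      (((Finset.range k).filter (fun i => CD n a 0 0 F (fun u => orb (↑F) σ u) s i) ∪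
        (Finset.range k).filter (fun i => CD n a (-n) 0 (rM F) (fun u => rS (orb (↑F) σ u)) s i))
        ∪ (Finset.range k).filter (fun i => CD n a (-n) (-n) (rM (rM F))
        (fun u => rS (rS (orb (↑F) σ u))) s i))
      ((Finset.range k).filter (fun i => CD n a 0 (-n) (rM (rM (rM F)))
        (fun u => rS (rS (rS (orb (↑F) σ u)))) s i))
    have h3 := Finset.card_union_le
      ((Finset.range k).filter (fun i => CD n a 0 0 F (fun u => orb (↑F) σ u) s i) ∪
        (Finset.range k).filter (fun i => CD n a (-n) 0 (rM F) (fun u => rS (orb (↑F) σ u)) s i))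
      ((Finset.range k).filter (fun i => CD n a (-n) (-n) (rM (rM F))
        (fun u => rS (rS (orb (↑F) σ u))) s i))
    have h4 := Finset.card_union_le
      ((Finset.range k).filter (fun i => CD n a 0 0 F (fun u => orb (↑F) σ u) s i))
      ((Finset.range k).filter (fun i => CD n a (-n) 0 (rM F) (fun u => rS (orb (↑F) σ u)) s i))
    unfold N4L
    omega
  -- the pieces are small
  have hn0 : (0:ℝ) < n := by exact_mod_cast hn
  have hstep : ∀ u, |(orb (↑F : Set Edge) σ (u + 1)).1.1 - (orb (↑F) σ u).1.1| ≤ 1 ∧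
      |(orb (↑F : Set Edge) σ (u + 1)).1.2 - (orb (↑F) σ u).1.2| ≤ 1 := by
    intro u
    rw [orb_succ]
    exact nxt_fst _ _
  have hpt : ∀ u v : ℕ, |(orb (↑F : Set Edge) σ u).1.1 - (orb (↑F) σ v).1.1| ≤ 4 * a + 2 →
      |(orb (↑F : Set Edge) σ u).1.2 - (orb (↑F) σ v).1.2| ≤ 4 * a + 2 →
      |(pt n (orb (↑F : Set Edge) σ u).1).re - (pt n (orb (↑F) σ v).1).re| ≤ (4 * a + 2) / n ∧
      |(pt n (orb (↑F : Set Edge) σ u).1).im - (pt n (orb (↑F) σ v).1).im| ≤ (4 * a + 2) / n := by
    intro u v h1 h2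
    have h1' : |((orb (↑F : Set Edge) σ u).1.1 : ℝ) - ((orb (↑F) σ v).1.1 : ℝ)| ≤ 4 * a + 2 := by
      exact_mod_cast h1
    have h2' : |((orb (↑F : Set Edge) σ u).1.2 : ℝ) - ((orb (↑F) σ v).1.2 : ℝ)| ≤ 4 * a + 2 := by
      exact_mod_cast h2
    constructor
    · show |((orb (↑F : Set Edge) σ u).1.1 : ℝ) / n - ((orb (↑F) σ v).1.1 : ℝ) / n| ≤ _
      rw [← sub_div, abs_div, abs_of_pos hn0]
      exact div_le_div_of_nonneg_right h1' hn0.le
    · show |((orb (↑F : Set Edge) σ u).1.2 : ℝ) / n - ((orb (↑F) σ v).1.2 : ℝ) / n| ≤ _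
      rw [← sub_div, abs_div, abs_of_pos hn0]
      exact div_le_div_of_nonneg_right h2' hn0.le
  have hpiece : ∀ i < k, ∀ u, s i ≤ u → u ≤ s (i + 1) →
      |(orb (↑F : Set Edge) σ u).1.1 - (orb (↑F) σ (s i)).1.1| ≤ 4 * a + 2 ∧
      |(orb (↑F : Set Edge) σ u).1.2 - (orb (↑F) σ (s i)).1.2| ≤ 4 * a + 2 := by
    intro i hi u hu1 hu2
    obtain ⟨h1, _, h3⟩ := hs1 i hi
    have key : ∀ v, s i ≤ v → v < s (i + 1) →
        |(orb (↑F : Set Edge) σ v).1.1 - (orb (↑F) σ (s i)).1.1| ≤ 4 * a + 1 ∧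
        |(orb (↑F : Set Edge) σ v).1.2 - (orb (↑F) σ (s i)).1.2| ≤ 4 * a + 1 := by
      intro v hv1 hv2
      have := h3 v hv1 hv2
      unfold Far at this
      rw [abs_le, abs_le]
      omega
    rcases Nat.lt_or_eq_of_le hu2 with h | h
    · have := key u hu1 h
      omega
    · obtain ⟨v, rfl⟩ : ∃ v, u = v + 1 := ⟨u - 1, by omega⟩
      have e1 := key v (by omega) (by omega)
      have e2 := hstep v
      rw [abs_le, abs_le] at e1 e2 ⊢
      omega
  have hlast : ∀ u, s k ≤ u → u ≤ N →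
      |(orb (↑F : Set Edge) σ u).1.1 - (orb (↑F) σ (s k)).1.1| ≤ 4 * a + 2 ∧
      |(orb (↑F : Set Edge) σ u).1.2 - (orb (↑F) σ (s k)).1.2| ≤ 4 * a + 2 := by
    intro u hu1 hu2
    have := hs2 u hu1 hu2
    unfold Far at this
    rw [abs_le, abs_le]
    omega
  have hρ : (0:ℝ) ≤ (4 * a + 2) / n := by positivity
  have hr : 3 * ((4 * (a:ℝ) + 2) / n) ≤ (12 * a + 6) / n := by
    apply le_of_eq
    ring
  rcases Nat.lt_or_eq_of_le hs3 with h | h
  · refine GRD_cut hP hN (K := k + 1) (ρ := (4 * a + 2) / n) (fun i => if i ≤ k then s i else N)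
      (by omega) (by simp [hs0]) (by simp) ?_ ?_ (by omega) hρ hr
    · intro i hi
      rcases Nat.lt_or_eq_of_le (Nat.lt_succ_iff.1 hi) with h1 | h1
      · simp only [h1.le, Nat.succ_le_of_lt h1, if_true]
        exact hlt i h1
      · subst h1
        simpa using h
    · intro i hi u
      rcases Nat.lt_or_eq_of_le (Nat.lt_succ_iff.1 hi) with h1 | h1
      · simp only [h1.le, Nat.succ_le_of_lt h1, if_true]
        intro hu1 hu2
        exact hpt _ _ (hpiece i h1 u hu1 hu2).1 (hpiece i h1 u hu1 hu2).2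
      · subst h1
        simp only [le_refl, if_true, Nat.not_succ_le_self, if_false]
        intro hu1 hu2
        exact hpt _ _ (hlast u hu1 hu2).1 (hlast u hu1 hu2).2
  · have hk0 : 0 < k := by
      rcases Nat.eq_zero_or_pos k with h1 | h1
      · rw [h1, hs0] at h
        omega
      · exact h1
    refine GRD_cut hP hN (K := k) (ρ := (4 * a + 2) / n) s hk0 hs0 h hlt ?_ (by omega) hρ hr
    intro i hi u hu1 hu2
    exact hpt _ _ (hpiece i hi u hu1 hu2).1 (hpiece i hi u hu1 hu2).2

end Pool.Agent.V5helper99.HR
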