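import Pool.Agent.V5helper99.HR.Loc

/-!
# The expected number of the local strands with two arms
-/

set_option autoImplicit false
set_option maxHeartbeats 4000000

namespace Pool.Agent.V5helper99.HR

open H974 H973 H12S H934E H934F H342P H342L H984P Finset

open Classical in
/-- Number of the local strands which start on the lines `x = b + i a` and are surrounded by two
arms up to the distance `H` in the box `[b, b + n] × [c, c + n]`. -/
noncomputable def NSL (n a : ℕ) (b c H : ℤ) (F : Finset Edg) : ℕ :=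
  ((Finset.range (n / a + 2) ×ˢ Finset.Icc c (c + n)).filter (fun x : ℕ × ℤ =>
    LS a (b + x.1 * a) x.2 F ∧ TwA n b c H F (b + x.1 * a, x.2))).card

theorem nsl_eq (n a : ℕ) (b c H : ℤ) (F : Finset Edg) : (NSL n a b c H F : ℝ) =
    ∑ x ∈ Finset.range (n / a + 2) ×ˢ Finset.Icc c (c + n),
      ind (LS a (b + x.1 * a) x.2 F ∧ TwA n b c H F (b + x.1 * a, x.2)) := by
  classical
  unfold NSL
  rw [Finset.card_filter]
  push_cast
  refine Finset.sum_congr rfl fun x _ => ?_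
  by_cases h : LS a (b + x.1 * a) x.2 F ∧ TwA n b c H F (b + x.1 * a, x.2)
  · rw [ind_of h, if_pos h]
  · rw [ind_not_of h, if_neg h]

/-- sum over the points of a column -/
theorem col_le {a : ℕ} (ha : 1 ≤ a) (n : ℕ) (c : ℤ) (f : ℤ → ℝ) (hf : ∀ y, 0 ≤ f y)
    (w : ℤ → ℝ) (hw : ∀ j, 0 ≤ w j) {B : ℝ}
    (hB : ∀ y1 : ℤ, ∑ y ∈ Finset.Icc y1 (y1 + a), f y ≤ B) :
    ∑ y ∈ Finset.Icc c (c + n), f y * w ((y - c) / a) ≤
      ∑ j ∈ Finset.Icc (0:ℤ) ((n / a + 1 : ℕ) : ℤ), B * w j := by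
  have ha0 : (0:ℤ) < a := by omega
  have hmaps : ∀ y ∈ Finset.Icc c (c + n), (y - c) / a ∈ Finset.Icc (0:ℤ) ((n / a + 1 : ℕ) : ℤ) := by
    intro y hy
    rw [Finset.mem_Icc] at hy ⊢
    constructor
    · exact Int.ediv_nonneg (by omega) ha0.le
    · have h1 : (y - c) / a ≤ (n:ℤ) / a := Int.ediv_le_ediv ha0 (by omega)
      push_cast
      omega
  rw [← Finset.sum_fiberwise_of_maps_to hmaps]
  apply Finset.sum_le_sum
  intro j _
  calc ∑ y ∈ Finset.Icc c (c + n) with (y - c) / (a:ℤ) = j, f y * w ((y - c) / a)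
      = ∑ y ∈ Finset.Icc c (c + n) with (y - c) / (a:ℤ) = j, f y * w j := by
        apply Finset.sum_congr rfl
        intro y hy
        rw [(Finset.mem_filter.1 hy).2]
    _ = (∑ y ∈ Finset.Icc c (c + n) with (y - c) / (a:ℤ) = j, f y) * w j := by
        rw [Finset.sum_mul]
    _ ≤ B * w j := by
        apply mul_le_mul_of_nonneg_right _ (hw j)
        refine le_trans ?_ (hB (c + a * j))
        apply Finset.sum_le_sum_of_subset_of_nonneg
        · intro y hy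
          rw [Finset.mem_filter] at hy
          rw [Finset.mem_Icc]
          obtain ⟨-, hy⟩ := hy
          have h1 := Int.ediv_mul_le (y - c) ha0.ne'
          have h2 := Int.lt_ediv_add_one_mul_self (y - c) ha0
          rw [hy] at h1 h2
          constructor
          · linarith
          · linarith
        · intro y _ _
          exact hf y

theorem ex_le_aux {C : ℝ} (hC : 1 ≤ C) (hA : ∀ r R : ℕ, 1 ≤ r → r ≤ R → ∀ (c1 c2 : ℤ)
    (S : Finset Edg), PQ (1/2) S (fun F => Crs c1 c2 r R ↑F ∧ DCrs c1 c2 r R (↑(S \ F) : Set Edg)) ≤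
      C * ((r : ℝ) / R) ^ (1/4 : ℝ)) {Cs : ℝ} (hCs : 0 < Cs)
    (hs : ∀ (A X y1 : ℤ) (a : ℕ) (S : Finset Edg), 5 ≤ a → A + 3 * a ≤ X →
      ∑ y0 ∈ Finset.Icc y1 (y1 + a), Pr (fun _ => (1/2:ℝ)) S
        (fun F => ∃ (Y : ℤ) (T : ℕ), Strand (↑F) A y0 X Y T) ≤ Cs)
    {n a : ℕ} (ha : 5 ≤ a) (b c H κ : ℤ) (hκ : a * (κ - 2) ≤ H) :
    Ex (fun _ => (1/2:ℝ)) (RE b (b + n) c (c + n)) (fun F => (NSL n a b c H F : ℝ)) ≤
      4 * C * Cs * (((n / a + 1 : ℕ) + 1) ^ 2 * ph 1 (1/4) κ + 4 * ((n / a + 1 : ℕ) + 1) *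
        ∑ x ∈ Finset.Icc (0:ℤ) (n / a + 1 : ℕ), ph 1 (1/4) x) := by
  have hok : Ok (fun _ : Edg => (1/2:ℝ)) := fun _ => ⟨by norm_num, by norm_num⟩
  have ha0 : (0:ℤ) < a := by omega
  have hph : ∀ k : ℤ, 0 ≤ ph 1 (1/4) k := fun k => ph_nonneg (by norm_num) k
  have hcard : ∀ M : ℕ, (Finset.Icc (0:ℤ) M).card = M + 1 := by
    intro M
    rw [Int.card_Icc]; omega
  set M : ℕ := n / a + 1 with hM
  have hMn : (a:ℤ) * ((M:ℤ) - 1) ≤ n := by
    have h1 := Nat.mul_div_le n a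
    have h2 : ((a * (n / a) : ℕ) : ℤ) ≤ n := by exact_mod_cast h1
    have h3 : ((M:ℤ) - 1) = ((n / a : ℕ) : ℤ) := by rw [hM]; push_cast; ring
    rw [h3]
    push_cast at h2 ⊢
    exact h2
  have hMn2 : (n:ℤ) < a * M := by
    have h1 := Nat.lt_div_mul_add (a := n) (show 0 < a by omega)
    have h2 : ((n : ℕ) : ℤ) < ((n / a * a + a : ℕ) : ℤ) := by exact_mod_cast h1
    rw [hM]
    push_cast at h2 ⊢
    linarith
  rw [Ex_congr (g := fun F => ∑ x ∈ Finset.range (n / a + 2) ×ˢ Finset.Icc c (c + n),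
    ind (LS a (b + x.1 * a) x.2 F ∧ TwA n b c H F (b + x.1 * a, x.2)))
    (fun F _ => nsl_eq n a b c H F), Ex_sum]
  have hone : ∀ x ∈ Finset.range (n / a + 2) ×ˢ Finset.Icc c (c + n),
      Ex (fun _ => (1/2:ℝ)) (RE b (b + n) c (c + n)) (fun F =>
        ind (LS a (b + x.1 * a) x.2 F ∧ TwA n b c H F (b + x.1 * a, x.2))) ≤
      Pr (fun _ => (1/2:ℝ)) (RE b (b + n) c (c + n)) (fun F => LS a (b + x.1 * a) x.2 F) *
        (4 * C * ph 1 (1/4) (min κ (bdist M ((x.1:ℤ), (x.2 - c) / a)))) := by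
    rintro ⟨i, y⟩ hx
    rw [Finset.mem_product, Finset.mem_range, Finset.mem_Icc] at hx
    simp only at hx ⊢
    set j : ℤ := (y - c) / a with hj
    have hj1 := Int.ediv_mul_le (y - c) ha0.ne'
    have hj2 := Int.lt_ediv_add_one_mul_self (y - c) ha0
    rw [← hj] at hj1 hj2
    set k : ℤ := min κ (bdist M ((i:ℤ), j)) with hk
    have k0 : k ≤ κ := min_le_left _ _
    have kb : k ≤ bdist M ((i:ℤ), j) := min_le_right _ _
    unfold bdist at kb
    rw [le_min_iff, le_min_iff, le_min_iff] at kb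
    obtain ⟨⟨b1, b2⟩, b3, b4⟩ := kb
    simp only at b1 b2 b3 b4
    have m0 : (a:ℤ) * (k - 2) ≤ a * (κ - 2) := mul_le_mul_of_nonneg_left (by omega) ha0.le
    have m1 : (a:ℤ) * (k - 2) ≤ a * (i - 2) := mul_le_mul_of_nonneg_left (by omega) ha0.le
    have m2 : (a:ℤ) * (k - 2) ≤ a * (M - i - 2) := mul_le_mul_of_nonneg_left (by omega) ha0.le
    have m3 : (a:ℤ) * (k - 2) ≤ a * (j - 2) := mul_le_mul_of_nonneg_left (by omega) ha0.le
    have m4 : (a:ℤ) * (k - 2) ≤ a * (M - j - 2) := mul_le_mul_of_nonneg_left (by omega) ha0.le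
    exact one_le hC hA ha (by linarith) (by nlinarith) (by nlinarith) (by nlinarith)
      (by nlinarith)
  refine (Finset.sum_le_sum hone).trans ?_
  rw [Finset.sum_product]
  have hcol : ∀ i ∈ Finset.range (n / a + 2),
      ∑ y ∈ Finset.Icc c (c + n), Pr (fun _ => (1/2:ℝ)) (RE b (b + n) c (c + n))
        (fun F => LS a (b + i * a) y F) *
        (4 * C * ph 1 (1/4) (min κ (bdist M ((i:ℤ), (y - c) / a)))) ≤
      ∑ j ∈ Finset.Icc (0:ℤ) M, Cs * (4 * C * ph 1 (1/4) (min κ (bdist M ((i:ℤ), j)))) := by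
    intro i _
    refine col_le (by omega) n c (fun y => Pr (fun _ => (1/2:ℝ)) (RE b (b + n) c (c + n))
        (fun F => LS a (b + i * a) y F)) (fun y => Pr_nonneg hok _ _)
        (fun j => 4 * C * ph 1 (1/4) (min κ (bdist M ((i:ℤ), j)))) (fun j => ?_) ?_
    · have := hph (min κ (bdist M ((i:ℤ), j)))
      positivity
    · intro y1
      refine le_trans (Finset.sum_le_sum fun y _ => ?_) (hs (b + i * a) (b + i * a + 3 * a) y1 a
        (RE b (b + n) c (c + n)) ha le_rfl)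
      apply Pr_mono hok
      rintro F _ ⟨Y, T, h, -⟩
      exact ⟨Y, T, h⟩
  refine (Finset.sum_le_sum hcol).trans ?_
  have hr : ∀ g : ℤ → ℝ, ∑ i ∈ Finset.range (n / a + 2), g (i:ℤ) = ∑ x ∈ Finset.Icc (0:ℤ) M, g x := by
    intro g
    have hr0 : n / a + 2 = M + 1 := rfl
    rw [hr0]
    clear_value M
    apply Finset.sum_nbij' (fun i : ℕ => (i : ℤ)) (fun x : ℤ => x.toNat)
    · intro i hi
      rw [Finset.mem_range] at hi
      rw [Finset.mem_Icc]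
      omega
    · intro x hx
      rw [Finset.mem_Icc] at hx
      rw [Finset.mem_range]
      omega
    · intro i _
      simp
    · intro x hx
      rw [Finset.mem_Icc] at hx
      exact Int.toNat_of_nonneg hx.1
    · intro i _
      rfl
  rw [hr (fun x => ∑ j ∈ Finset.Icc (0:ℤ) M, Cs * (4 * C * ph 1 (1/4) (min κ (bdist M (x, j)))))]
  have hmin : ∀ x ∈ Finset.Icc (0:ℤ) M, ∀ j ∈ Finset.Icc (0:ℤ) M,
      Cs * (4 * C * ph 1 (1/4) (min κ (bdist M (x, j)))) ≤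
      4 * C * Cs * (ph 1 (1/4) κ + (ph 1 (1/4) x + ph 1 (1/4) (M - x) +
        (ph 1 (1/4) j + ph 1 (1/4) (M - j)))) := by
    intro x _ j _
    have h1 := ph_min (s := 1/4) (C := 1) (by norm_num) M κ (x, j)
    calc Cs * (4 * C * ph 1 (1/4) (min κ (bdist M (x, j)))) =
        4 * C * Cs * ph 1 (1/4) (min κ (bdist M (x, j))) := by ring
      _ ≤ _ := mul_le_mul_of_nonneg_left h1 (by positivity)
  refine (Finset.sum_le_sum fun x hx => Finset.sum_le_sum (hmin x hx)).trans (le_of_eq ?_)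
  have hc : (Finset.Icc (0:ℤ) M).card = M + 1 := hcard M
  simp_rw [← Finset.mul_sum, Finset.sum_add_distrib, Finset.sum_const, hc,
    sum_refl M (ph 1 (1/4))]
  simp_rw [nsmul_eq_mul]
  have hr1 : ∑ x ∈ Finset.Icc (0:ℤ) M, ((M + 1 : ℕ) : ℝ) * ph 1 (1/4) (M - x) =
      ((M + 1 : ℕ) : ℝ) * ∑ x ∈ Finset.Icc (0:ℤ) M, ph 1 (1/4) x := by
    rw [← Finset.mul_sum, sum_refl M (ph 1 (1/4))]
  have hr2 : ∑ x ∈ Finset.Icc (0:ℤ) M, ((M + 1 : ℕ) : ℝ) * ph 1 (1/4) x =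
      ((M + 1 : ℕ) : ℝ) * ∑ x ∈ Finset.Icc (0:ℤ) M, ph 1 (1/4) x := by
    rw [← Finset.mul_sum]
  simp only [hr1, hr2]
  push_cast
  ring

/-- The expected number of the strands: at most `K (n / a) ^ (7/4)`. -/
theorem ex_NSL (hA : H934F.St_A) (θ : ℝ) (hθ : 0 < θ) : ∃ K : ℝ, 0 < K ∧
    ∀ (n a : ℕ) (b c H : ℤ), 5 ≤ a → a ≤ n → θ * n ≤ H →
      Ex (fun _ => (1/2:ℝ)) (RE b (b + n) c (c + n)) (fun F => (NSL n a b c H F : ℝ)) ≤
        K * ((n:ℝ) / a) ^ (7/4 : ℝ) := by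
  obtain ⟨C0, hC0, hA0⟩ := hA
  obtain ⟨Cs, hCs, hs⟩ := strand_count
  set C : ℝ := max C0 1 with hCdef
  have hC : 1 ≤ C := le_max_right _ _
  have hA1 : ∀ r R : ℕ, 1 ≤ r → r ≤ R → ∀ (c1 c2 : ℤ)
    (S : Finset Edg), PQ (1/2) S (fun F => Crs c1 c2 r R ↑F ∧ DCrs c1 c2 r R (↑(S \ F) : Set Edg)) ≤
      C * ((r : ℝ) / R) ^ (1/4 : ℝ) := by
    intro r R h1 h2 c1 c2 S
    refine (hA0 r R h1 h2 c1 c2 S).trans ?_
    apply mul_le_mul_of_nonneg_right (le_max_left _ _)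
    positivity
  refine ⟨4 * C * Cs * (3 ^ (7/4 : ℝ) * ((θ / 3) ^ (-(1/4) : ℝ) + 28 / 3)), by positivity, ?_⟩
  intro n a b c H ha han hH
  have haR : (5:ℝ) ≤ a := by exact_mod_cast ha
  have hanR : (a:ℝ) ≤ n := by exact_mod_cast han
  have ha0 : (0:ℤ) < a := by omega
  have hH0 : 0 ≤ H := by
    have : (0:ℝ) ≤ H := le_trans (by positivity) hH
    exact_mod_cast this
  have hκ : (a:ℤ) * ((H / a + 2) - 2) ≤ H := by
    have := Int.mul_ediv_self_le (x := H) ha0.ne'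
    linarith
  refine (ex_le_aux hC hA1 hCs hs ha b c H (H / a + 2) hκ).trans ?_
  set M : ℕ := n / a + 1 with hM
  set m : ℝ := (M:ℝ) + 1 with hm
  have hm1 : 1 ≤ m := by rw [hm]; linarith [(Nat.cast_nonneg M : (0:ℝ) ≤ M)]
  have hna : 1 ≤ (n:ℝ) / a := by rw [le_div_iff₀ (by linarith)]; linarith
  have hm3 : m ≤ 3 * ((n:ℝ) / a) := by
    have h4 : ((n / a : ℕ) : ℝ) ≤ (n:ℝ) / a := Nat.cast_div_le
    rw [hm, hM]
    push_cast
    linarith
  -- the first term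
  have hκ0 : 0 < H / a + 2 := by
    have := Int.ediv_nonneg hH0 ha0.le
    omega
  have hκm : θ / 3 * m ≤ ((H / a + 2 : ℤ) : ℝ) := by
    have h1 := Int.lt_ediv_add_one_mul_self H ha0
    have h2 : (H:ℝ) < (((H / a : ℤ) : ℝ) + 1) * a := by exact_mod_cast h1
    have h3 : θ * n ≤ (((H / a : ℤ) : ℝ) + 1) * a := by linarith
    have h4 : θ * (n / a) ≤ ((H / a : ℤ) : ℝ) + 1 := by
      rw [mul_div_assoc', div_le_iff₀ (by linarith)]
      exact h3
    push_cast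
    nlinarith
  have hp1 : ph 1 (1/4) (H / a + 2) ≤ (θ / 3) ^ (-(1/4) : ℝ) * m ^ (-(1/4) : ℝ) := by
    unfold ph
    rw [if_neg (by omega), one_mul, ← Real.mul_rpow (by positivity) (by positivity)]
    exact Real.rpow_le_rpow_of_nonpos (by positivity) hκm (by norm_num)
  have hp2 : ∑ x ∈ Finset.Icc (0:ℤ) M, ph 1 (1/4) x ≤ 7 / 3 * m ^ (3/4 : ℝ) := by
    refine (sum_ph_le (C := 1) (s := 1/4) (by norm_num) (by norm_num) (by norm_num) M).trans ?_
    have h1 : (M:ℝ) ^ (1 - 1/4 : ℝ) ≤ m ^ (3/4 : ℝ) := by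
      rw [show (1 - 1/4 : ℝ) = 3/4 by norm_num]
      exact Real.rpow_le_rpow (by positivity) (by rw [hm]; linarith) (by norm_num)
    have h2 : 1 ≤ m ^ (3/4 : ℝ) := Real.one_le_rpow hm1 (by norm_num)
    have h3 : (1:ℝ) - 1/4 = 3/4 := by norm_num
    rw [h3] at h1 ⊢
    linarith
  have e1 : m ^ 2 * m ^ (-(1/4) : ℝ) = m ^ (7/4 : ℝ) := by
    rw [← Real.rpow_natCast m 2, ← Real.rpow_add (by linarith)]
    norm_num
  have e2 : m * m ^ (3/4 : ℝ) = m ^ (7/4 : ℝ) := by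
    nth_rewrite 1 [← Real.rpow_one m]
    rw [← Real.rpow_add (by linarith)]
    norm_num
  have hmp : m ^ (7/4 : ℝ) ≤ 3 ^ (7/4 : ℝ) * ((n:ℝ) / a) ^ (7/4 : ℝ) := by
    rw [← Real.mul_rpow (by norm_num) (by positivity)]
    exact Real.rpow_le_rpow (by linarith) hm3 (by norm_num)
  have key : m ^ 2 * ph 1 (1/4) (H / a + 2) + 4 * m * ∑ x ∈ Finset.Icc (0:ℤ) M, ph 1 (1/4) x ≤
      ((θ / 3) ^ (-(1/4) : ℝ) + 28 / 3) * m ^ (7/4 : ℝ) := by
    have k1 : m ^ 2 * ph 1 (1/4) (H / a + 2) ≤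
        m ^ 2 * ((θ / 3) ^ (-(1/4) : ℝ) * m ^ (-(1/4) : ℝ)) :=
      mul_le_mul_of_nonneg_left hp1 (by positivity)
    have k2 : 4 * m * ∑ x ∈ Finset.Icc (0:ℤ) M, ph 1 (1/4) x ≤ 4 * m * (7 / 3 * m ^ (3/4 : ℝ)) :=
      mul_le_mul_of_nonneg_left hp2 (by positivity)
    calc _ ≤ m ^ 2 * ((θ / 3) ^ (-(1/4) : ℝ) * m ^ (-(1/4) : ℝ)) +
          4 * m * (7 / 3 * m ^ (3/4 : ℝ)) := add_le_add k1 k2
      _ = (θ / 3) ^ (-(1/4) : ℝ) * (m ^ 2 * m ^ (-(1/4) : ℝ)) + 28 / 3 * (m * m ^ (3/4 : ℝ)) := by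
          ring
      _ = _ := by rw [e1, e2]; ring
  calc 4 * C * Cs * (m ^ 2 * ph 1 (1/4) (H / a + 2) + 4 * m *
        ∑ x ∈ Finset.Icc (0:ℤ) M, ph 1 (1/4) x)
      ≤ 4 * C * Cs * (((θ / 3) ^ (-(1/4) : ℝ) + 28 / 3) * m ^ (7/4 : ℝ)) :=
        mul_le_mul_of_nonneg_left key (by positivity)
    _ ≤ 4 * C * Cs * (((θ / 3) ^ (-(1/4) : ℝ) + 28 / 3) *
        (3 ^ (7/4 : ℝ) * ((n:ℝ) / a) ^ (7/4 : ℝ))) := by
        apply mul_le_mul_of_nonneg_left _ (by positivity)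
        exact mul_le_mul_of_nonneg_left hmp (by positivity)
    _ = _ := by ring

end Pool.Agent.V5helper99.HR
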