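import Pool.Agent.V5helper99.HR.Lim

/-!
# Regularity: assembly
-/

set_option autoImplicit false
set_option maxHeartbeats 4000000

namespace Pool.Agent.V5helper99.HR

open H342P H342P.Plain H342L H984P H342T MeasureTheory TopologicalSpace Filter Topology
open scoped ENNReal NNReal

theorem log_pow_le {β ε : ℝ} (hβ : 0 < β) (hε : 0 < ε) : ∃ A : ℝ, 0 < A ∧ ∀ x : ℝ, 0 < x → x ≤ 1 →
    (1 + |Real.log x|) ^ β ≤ A * x ^ (-ε) := by
  set η : ℝ := min 1 (ε / β) with hη
  have hη0 : 0 < η := lt_min one_pos (by positivity)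
  have hη1 : η ≤ 1 := min_le_left _ _
  have hηβ : η * β ≤ ε := by
    have : η ≤ ε / β := min_le_right _ _
    rwa [le_div_iff₀ hβ] at this
  refine ⟨η ^ (-β), by positivity, fun x hx0 hx1 => ?_⟩
  have hlog : Real.log x ≤ 0 := Real.log_nonpos hx0.le hx1
  set y : ℝ := |Real.log x| with hy
  have hy0 : 0 ≤ y := abs_nonneg _
  have hyx : y = -Real.log x := abs_of_nonpos hlog
  have h1 : 1 + y ≤ η⁻¹ * Real.exp (η * y) := by
    have h2 : 1 + η * y ≤ Real.exp (η * y) := by
      have := Real.add_one_le_exp (η * y)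
      linarith
    have h3 : η * (1 + y) ≤ Real.exp (η * y) := by nlinarith
    rw [inv_mul_eq_div, le_div_iff₀ hη0]
    linarith
  calc (1 + y) ^ β ≤ (η⁻¹ * Real.exp (η * y)) ^ β := Real.rpow_le_rpow (by linarith) h1 hβ.le
    _ = η ^ (-β) * Real.exp (η * β * y) := by
        rw [Real.mul_rpow (by positivity) (Real.exp_pos _).le, ← Real.exp_mul,
          Real.inv_rpow hη0.le, ← Real.rpow_neg hη0.le]
        congr 2
        ring
    _ ≤ η ^ (-β) * Real.exp (ε * y) := by
        apply mul_le_mul_of_nonneg_left _ (by positivity)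
        apply Real.exp_le_exp.2
        exact mul_le_mul_of_nonneg_right hηβ hy0
    _ = η ^ (-β) * x ^ (-ε) := by
        congr 1
        rw [Real.rpow_def_of_pos hx0, hyx]
        congr 1
        ring

theorem holder_of_mod {β K : ℝ} (hβ : 0 < β) {f : C(unitInterval, ℂ)}
    (hf : ∀ s s' : unitInterval, dist (f s) (f s') ≤ K * psi β (dist s s')) (α : ℝ≥0)
    (hα : α < 4 / 7) : ∃ C : ℝ≥0, HolderWith C α f := by
  have hα' : (α : ℝ) < 4 / 7 := by exact_mod_cast hα
  obtain ⟨A, hA, hlog⟩ := log_pow_le hβ (show 0 < 4 / 7 - (α:ℝ) by linarith)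
  refine ⟨Real.toNNReal (|K| * A), fun s s' => ?_⟩
  have hKA : 0 ≤ |K| * A := mul_nonneg (abs_nonneg _) hA.le
  have key : dist (f s) (f s') ≤ |K| * A * dist s s' ^ (α : ℝ) := by
    rcases eq_or_lt_of_le (dist_nonneg (x := s) (y := s')) with h | h
    · have h1 : s = s' := dist_eq_zero.1 h.symm
      rw [h1, dist_self]
      positivity
    · have hx1 : dist s s' ≤ 1 := by
        rw [Subtype.dist_eq, Real.dist_eq, abs_le]
        have h1 := s.2.1
        have h2 := s.2.2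
        have h3 := s'.2.1
        have h4 := s'.2.2
        constructor <;> linarith
      have h2 := hlog _ h hx1
      set x := dist s s' with hx
      have h3 : psi β x ≤ A * x ^ (α : ℝ) := by
        unfold psi
        calc x ^ (4/7 : ℝ) * (1 + |Real.log x|) ^ β ≤ x ^ (4/7 : ℝ) * (A * x ^ (-(4/7 - (α:ℝ)))) :=
              mul_le_mul_of_nonneg_left h2 (by positivity)
          _ = A * (x ^ (4/7 : ℝ) * x ^ (-(4/7 - (α:ℝ)))) := by ring
          _ = A * x ^ (α : ℝ) := by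
              rw [← Real.rpow_add h]
              congr 2
              ring
      calc dist (f s) (f s') ≤ K * psi β x := hf s s'
        _ ≤ |K| * psi β x := mul_le_mul_of_nonneg_right (le_abs_self K) (psi_nonneg h.le)
        _ ≤ |K| * (A * x ^ (α : ℝ)) := mul_le_mul_of_nonneg_left h3 (abs_nonneg _)
        _ = _ := by ring
  rw [edist_dist, edist_dist]
  have h5 : ENNReal.ofReal (dist s s') ^ (α : ℝ) = ENNReal.ofReal (dist s s' ^ (α : ℝ)) :=
    ENNReal.ofReal_rpow_of_nonneg dist_nonneg α.2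
  rw [h5]
  have h1 : ((Real.toNNReal (|K| * A) : ℝ≥0) : ℝ≥0∞) = ENNReal.ofReal (|K| * A) := rfl
  rw [h1, ← ENNReal.ofReal_mul hKA]
  exact ENNReal.ofReal_le_ofReal key

section

variable (hA : H934F.St_A) {C : ℝ} (hC : 0 < C) (hU : TwoUp C (1/4)) (hR : St_RNG)
    (hG : St_GRD) (hP : St_POL) (hS : St_SML)

include hA hC hU hR hG hP hS in
theorem disc_reg {u : ℝ} (hu : 1 < u) {δ : ℝ} (hδ : 0 < δ) : ∃ K : ℝ, 0 < K ∧ ∀ n : ℕ, 0 < n →
    prob n (fun F => ¬ ∀ v c, Largest n F v → IsTrace n F v c → Reg (8 / 7 * u) K c.path) ≤ δ := by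
  have hok : H974.Ok (fun _ : Edge => (1/2:ℝ)) := fun _ => ⟨by norm_num, by norm_num⟩
  obtain ⟨Λ, hΛ, h⟩ := disc hA hC hU hR hG hP hS hu hδ
  obtain ⟨K, hK, hreg⟩ := reg_of_cut hu hΛ
  refine ⟨K, hK, fun n hn => ?_⟩
  refine le_trans ?_ (h n hn)
  rw [prob_eq, prob_eq]
  apply H974.Pr_mono hok
  intro F _ hnot hall
  apply hnot
  intro v c hv hc
  obtain ⟨h1, h2⟩ := hall v c hv hc
  apply hreg c.path h1
  intro j
  have h3 := h2 j
  unfold XX at h3
  rwa [← mul_assoc] at h3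

include hA hC hU hR hG hP hS in
theorem lim_reg {sel : (n : ℕ) → Finset Edge → ℤ × ℤ}
    (hsel : ∀ n F, 0 < n → F ⊆ edges n → Largest n F (sel n F))
    {γ : (n : ℕ) → Finset Edge → Curve}
    (hγ : ∀ n F, 0 < n → F ⊆ edges n → IsTrace n F (sel n F) (γ n F))
    {k : ℕ → ℕ} (hk : Tendsto k atTop atTop) {μ : ProbabilityMeasure Curve}
    (hμ : Tendsto (fun i => lawOf (k i) (γ (k i))) atTop (𝓝 μ)) {u : ℝ} (hu : 1 < u) :
    ∀ᵐ c : Curve ∂(μ : Measure Curve), ∃ K : ℝ, c ∈ RegC (8 / 7 * u) K := by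
  have hok : H974.Ok (fun _ : Edge => (1/2:ℝ)) := fun _ => ⟨by norm_num, by norm_num⟩
  rw [ae_iff]
  have key : ∀ δ : ℝ, 0 < δ → (μ : Measure Curve) {c | ¬ ∃ K : ℝ, c ∈ RegC (8 / 7 * u) K} ≤
      ENNReal.ofReal δ := by
    intro δ hδ
    obtain ⟨K, hK, h⟩ := disc_reg hA hC hU hR hG hP hS hu hδ
    have hopen : IsOpen (RegC (8 / 7 * u) K)ᶜ := (regC_closed _ _).isOpen_compl
    have h1 : (μ : Measure Curve) {c | ¬ ∃ K : ℝ, c ∈ RegC (8 / 7 * u) K} ≤
        (μ : Measure Curve) (RegC (8 / 7 * u) K)ᶜ := by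
      apply measure_mono
      intro c hc hcK
      exact hc ⟨K, hcK⟩
    refine h1.trans ((ProbabilityMeasure.le_liminf_measure_open_of_tendsto hμ hopen).trans ?_)
    have h2 : ∀ᶠ i in atTop, (lawOf (k i) (γ (k i)) : Measure Curve) (RegC (8 / 7 * u) K)ᶜ ≤
        ENNReal.ofReal δ := by
      filter_upwards [hk.eventually_ge_atTop 1] with i hi
      rw [lawOf_apply _ _ hopen.measurableSet]
      apply ENNReal.ofReal_le_ofReal
      refine le_trans ?_ (h (k i) (by omega))
      rw [prob_eq, prob_eq]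
      apply H974.Pr_mono hok
      intro F hF hnot hall
      rw [← edges_eq] at hF
      apply hnot
      have hi' : 0 < k i := by omega
      have hv := hsel (k i) F hi' hF
      have hc := hγ (k i) F hi' hF
      obtain ⟨φ, hφ⟩ := hall _ _ hv hc
      refine ⟨rep (γ (k i) F).path φ, ⟨fun s => ?_, hφ⟩, rep_dist_zero _ _⟩
      exact (trace_cut hR hG hS hi' hF hv.1 hc).1 _
    refine (Filter.liminf_le_limsup).trans ?_
    exact Filter.limsup_le_of_le (h := h2)
  have h0 : (μ : Measure Curve) {c | ¬ ∃ K : ℝ, c ∈ RegC (8 / 7 * u) K} ≤ 0 := by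
    apply ENNReal.le_of_forall_pos_le_add
    intro ε hε _
    rw [zero_add]
    have := key ε (by exact_mod_cast hε)
    rwa [ENNReal.ofReal_coe_nnreal] at this
  exact le_antisymm h0 bot_le

end

end Pool.Agent.V5helper99.HR
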