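import Pool.Agent.V5helper99.HR.Prob
import Pool.Agent.H342R3.Lim.Law
import Mathlib.Topology.MetricSpace.HausdorffDimension

/-!
# Regularity of the weak limits
-/

set_option autoImplicit false
set_option maxHeartbeats 4000000

namespace Pool.Agent.V5helper99.HR

open H342P H342P.Plain H342L H984P H342T MeasureTheory TopologicalSpace Filter Topology
open scoped ENNReal NNReal

/-- The functions into the unit square with the modulus of continuity `K psi`. -/
def Mod (β K : ℝ) : Set C(unitInterval, ℂ) :=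
  {f | (∀ s, f s ∈ csq) ∧ ∀ s s' : unitInterval, dist (f s) (f s') ≤ K * psi β (dist s s')}

theorem psi_small {β : ℝ} (K : ℝ) {ε : ℝ} (hε : 0 < ε) : ∃ δ : ℝ, 0 < δ ∧ ∀ x : ℝ, 0 ≤ x → x < δ →
    K * psi β x < ε := by
  -- the product of a power and a power of the logarithm tends to zero
  have h1 : Tendsto (fun x : ℝ => K * psi β x) (𝓝[>] 0) (𝓝 0) := by
    have h2 : Tendsto (fun x : ℝ => psi β x) (𝓝[>] 0) (𝓝 0) := by
      have h3 : Tendsto (fun y : ℝ => (1 + y) ^ β * Real.exp (-(4/7 : ℝ) * y)) atTop (𝓝 0) := by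
        have h4 := tendsto_rpow_mul_exp_neg_mul_atTop_nhds_zero β (4/7) (by norm_num)
        have h5 : Tendsto (fun y : ℝ => 1 + y) atTop atTop := tendsto_atTop_add_const_left _ 1 tendsto_id
        have h6 := (h4.comp h5).const_mul (Real.exp (4/7 : ℝ))
        rw [mul_zero] at h6
        refine h6.congr fun y => ?_
        simp only [Function.comp]
        rw [show -(4/7 : ℝ) * (1 + y) = -(4/7) + -(4/7) * y by ring, Real.exp_add]
        rw [show Real.exp (4/7 : ℝ) * ((1 + y) ^ β * (Real.exp (-(4/7)) * Real.exp (-(4/7) * y))) =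
          (Real.exp (4/7 : ℝ) * Real.exp (-(4/7))) * ((1 + y) ^ β * Real.exp (-(4/7) * y)) by ring,
          ← Real.exp_add]
        simp
      have h7 : Tendsto (fun x : ℝ => -Real.log x) (𝓝[>] 0) atTop :=
        tendsto_neg_atBot_atTop.comp Real.tendsto_log_nhdsGT_zero
      have h8 := h3.comp h7
      refine h8.congr' ?_
      have h9 : ∀ᶠ x : ℝ in 𝓝[>] 0, x < 1 := by
        filter_upwards [nhdsWithin_le_nhds (Iio_mem_nhds (show (0:ℝ) < 1 by norm_num))] with x hx
        exact hx
      filter_upwards [h9, self_mem_nhdsWithin] with x hx1 hx0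
      have hx0 : (0:ℝ) < x := hx0
      simp only [Function.comp]
      unfold psi
      rw [abs_of_neg (Real.log_neg hx0 hx1), Real.rpow_def_of_pos hx0 (4/7), mul_comm]
      congr 1
      congr 1
      ring
    have := h2.const_mul K
    rwa [mul_zero] at this
  have h2 := (h1.eventually (gt_mem_nhds hε))
  rw [eventually_nhdsWithin_iff, Metric.eventually_nhds_iff] at h2
  obtain ⟨δ, hδ, h3⟩ := h2
  refine ⟨δ, hδ, fun x hx0 hx => ?_⟩
  rcases eq_or_lt_of_le hx0 with h | h
  · rw [← h]
    unfold psi
    rw [Real.zero_rpow (by norm_num), zero_mul, mul_zero]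
    exact hε
  · exact h3 (by rw [Real.dist_eq, sub_zero, abs_of_pos h]; exact hx) h

theorem mod_compact (β K : ℝ) : IsCompact (Mod β K) := by
  apply ArzelaAscoli.isCompact_of_equicontinuous
  · have h1 : IsCompact (Set.pi Set.univ (fun _ : unitInterval => csq)) :=
      isCompact_univ_pi fun _ => isCompact_csq
    have h2 : IsClosed {f : unitInterval → ℂ | ∀ (s s' : unitInterval),
        dist (f s) (f s') ≤ K * psi β (dist s s')} := by
      simp only [Set.ofPred_forall]
      refine isClosed_iInter fun s => isClosed_iInter fun s' => ?_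
      exact isClosed_le ((continuous_apply s).dist (continuous_apply s')) continuous_const
    have h3 : ContinuousMap.toFun '' (Mod β K) = Set.pi Set.univ (fun _ : unitInterval => csq) ∩
        {f : unitInterval → ℂ | ∀ (s s' : unitInterval),
        dist (f s) (f s') ≤ K * psi β (dist s s')} := by
      ext f
      constructor
      · rintro ⟨g, hg, rfl⟩
        exact ⟨fun s _ => hg.1 s, hg.2⟩
      · rintro ⟨hf1, hf2⟩
        have hf2' : ∀ (s s' : unitInterval), dist (f s) (f s') ≤ K * psi β (dist s s') := hf2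
        have hc : Continuous f := by
          rw [Metric.continuous_iff]
          intro s ε hε
          obtain ⟨δ, hδ, h4⟩ := psi_small (β := β) K hε
          exact ⟨δ, hδ, fun s' hs' => (hf2' s' s).trans_lt (h4 _ dist_nonneg hs')⟩
        exact ⟨⟨f, hc⟩, ⟨fun s => hf1 s (Set.mem_univ _), hf2'⟩, rfl⟩
    rw [h3]
    exact h1.inter_right h2
  · intro s
    rw [Metric.equicontinuousAt_iff_right]
    intro ε hε
    obtain ⟨δ, hδ, h4⟩ := psi_small (β := β) K hε
    filter_upwards [Metric.ball_mem_nhds s hδ] with s' hs' f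
    have hs2 : dist s s' < δ := by
      rw [dist_comm]
      exact hs'
    exact (f.2.2 s s').trans_lt (h4 _ dist_nonneg hs2)

/-- The curves with a parametrisation with the modulus of continuity `K psi`. -/
def RegC (β K : ℝ) : Set Curve := {c | ∃ f ∈ Mod β K, dist c ⟨f⟩ = 0}

theorem continuous_mk : Continuous (fun f : C(unitInterval, ℂ) => (⟨f⟩ : Curve)) := by
  apply LipschitzWith.continuous (K := 1)
  apply LipschitzWith.of_dist_le_mul
  intro f g
  rw [NNReal.coe_one, one_mul]
  have h1 := cdist_le f g (OrderIso.refl _)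
  have h2 : rep g (OrderIso.refl _) = g := by ext t; rfl
  rw [h2] at h1
  exact h1

theorem regC_closed (β K : ℝ) : IsClosed (RegC β K) := by
  set E : C(unitInterval, ℂ) → Curve := fun f => ⟨f⟩ with hE
  have hK : IsCompact (E '' Mod β K) := (mod_compact β K).image continuous_mk
  have h1 : RegC β K = closure (E '' Mod β K) := by
    ext c
    constructor
    · rintro ⟨f, hf, hd⟩
      rw [Metric.mem_closure_iff]
      intro ε hε
      exact ⟨E f, ⟨f, hf, rfl⟩, by rw [hd]; exact hε⟩
    · intro hc
      have hne : (E '' Mod β K).Nonempty := by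
        have : (closure (E '' Mod β K)).Nonempty := ⟨c, hc⟩
        exact closure_nonempty_iff.1 this
      obtain ⟨y, hy, hyd⟩ := hK.exists_infDist_eq_dist hne c
      rw [(Metric.mem_closure_iff_infDist_zero hne).1 hc] at hyd
      obtain ⟨f, hf, rfl⟩ := hy
      exact ⟨f, hf, hyd.symm⟩
  rw [h1]
  exact isClosed_closure

theorem rep_dist_zero (c : Curve) (φ : unitInterval ≃o unitInterval) :
    dist c ⟨rep c.path φ⟩ = 0 := by
  apply le_antisymm _ dist_nonneg
  have h1 := cdist_le c.path (rep c.path φ) φ.symm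
  have h2 : rep (rep c.path φ) φ.symm = c.path := by
    ext t
    show c.path (φ (φ.symm t)) = c.path t
    rw [OrderIso.apply_symm_apply]
  rw [h2, dist_self] at h1
  exact h1

theorem psi_mono {β β' x : ℝ} (h : β ≤ β') (hx : 0 ≤ x) : psi β x ≤ psi β' x := by
  unfold psi
  have h1 : 0 ≤ |Real.log x| := abs_nonneg _
  apply mul_le_mul_of_nonneg_left _ (by positivity)
  exact Real.rpow_le_rpow_of_exponent_le (by linarith) h

/-- Hölder exponents above `4/7` are impossible for a trace of dimension `7/4`. -/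
theorem no_holder {c c' : Curve} (hd : dimH (Set.range c.path) = 7 / 4) (hcc : dist c c' = 0)
    {α C : ℝ≥0} (hα : 4 / 7 < α) : ¬ HolderWith C α c'.path := by
  intro h
  have h1 : Set.range c.path = Set.range c'.path := by
    have h2 := Curve.dist_trace c c'
    rw [hcc] at h2
    have h3 : c.trace = c'.trace := dist_eq_zero.1 (le_antisymm h2 dist_nonneg)
    have h4 := congrArg (fun K : NonemptyCompacts ℂ => (K : Set ℂ)) h3
    exact h4
  have hα0 : 0 < α := lt_trans (by norm_num) hα
  have h2 := h.dimH_range_le hα0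
  have h3 : dimH (Set.univ : Set unitInterval) ≤ 1 := by
    have h4 : dimH (Subtype.val '' (Set.univ : Set unitInterval) : Set ℝ) =
        dimH (Set.univ : Set unitInterval) := isometry_subtype_coe.dimH_image _
    rw [← h4]
    refine (dimH_mono (Set.subset_univ _)).trans (le_of_eq ?_)
    exact Real.dimH_univ
  rw [← h1, hd] at h2
  have h4 : (7 / 4 : ℝ≥0∞) ≤ 1 / (α : ℝ≥0∞) := h2.trans (ENNReal.div_le_div_right h3 _)
  have h5 : (7 / 4 : ℝ≥0∞) * α ≤ 1 := by
    have hα1 : (α : ℝ≥0∞) ≠ 0 := by exact_mod_cast hα0.ne'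
    rw [ENNReal.le_div_iff_mul_le (Or.inl hα1) (Or.inl ENNReal.coe_ne_top)] at h4
    exact h4
  have h6 : ((7 / 4 : ℝ≥0) : ℝ≥0∞) = 7 / 4 := by
    rw [ENNReal.coe_div (by norm_num)]
    norm_num
  rw [← h6, ← ENNReal.coe_mul] at h5
  have h7 : (7 / 4 : ℝ≥0) * α ≤ 1 := by exact_mod_cast h5
  have h8 : (7 / 4 : ℝ≥0) * (4 / 7) < (7 / 4) * α := mul_lt_mul_of_pos_left hα (by norm_num)
  have h9 : (7 / 4 : ℝ≥0) * (4 / 7) = 1 := by norm_num
  rw [h9] at h8
  exact absurd h7 (not_le.2 h8)

end Pool.Agent.V5helper99.HR
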