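import Pool.Agent.H342R3.Tig.Stubs
import Pool.Agent.H342R3.Lim.TP
import Pool.Agent.H984R3.Per.SCount

/-!
# Local strands and the two arms around them
-/

set_option autoImplicit false
set_option maxHeartbeats 4000000

namespace Pool.Agent.V5helper99.HR

open H974 H973 H12S H934E H934F H342P H342L H984P Finset

/-- A strand of width `3 a` starting at `(A, y)` which stays near its starting point. -/
def LS (a : ℕ) (A y : ℤ) (F : Finset Edg) : Prop :=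
  ∃ (Y : ℤ) (T : ℕ), Strand (↑F : Set Edg) A y (A + 3 * a) Y T ∧
    ∀ s ≤ T, |(orb (↑F : Set Edg) (st0 A y) s).1.2 - y| ≤ 8 * a + 4

theorem ls_exm {a : ℕ} {A y Y : ℤ} {T : ℕ} {F : Finset Edg}
    (hst : Strand (↑F : Set Edg) A y (A + 3 * a) Y T)
    (hy : ∀ s ≤ T, |(orb (↑F : Set Edg) (st0 A y) s).1.2 - y| ≤ 8 * a + 4) {e : Edg}
    (he : e ∈ Exm (↑F : Set Edg) (st0 A y) T) : e ∈ t3_B (A, y) (8 * a + 6) := by
  obtain ⟨s, hs, rfl⟩ := mem_Exm.1 he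
  have h1 := hst.stay s hs
  have h2 := abs_le.1 (hy s hs.le)
  apply t3_edge_near
  unfold t3_in
  rcases p2_ends (orb (↑F : Set Edg) (st0 A y) s) with h | h
  · left
    rw [h.1]
    simp only
    omega
  · right
    rw [h.2]
    simp only
    omega

theorem ls_mono {a : ℕ} {A y : ℤ} {F G : Finset Edg}
    (hFG : F ∩ t3_B (A, y) (8 * a + 6) = G ∩ t3_B (A, y) (8 * a + 6)) (h : LS a A y F) :
    LS a A y G := by
  obtain ⟨Y, T, hst, hy⟩ := h
  have hag : ∀ e ∈ t3_B (A, y) (8 * a + 6), (e ∈ (↑F : Set Edg) ↔ e ∈ (↑G : Set Edg)) := by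
    intro e he
    have h1 : e ∈ F ∩ t3_B (A, y) (8 * a + 6) ↔ e ∈ G ∩ t3_B (A, y) (8 * a + 6) := by rw [hFG]
    simp only [Finset.mem_inter, he, and_true] at h1
    exact_mod_cast h1
  have hex : ∀ e ∈ Exm (↑F : Set Edg) (st0 A y) T, (e ∈ (↑F : Set Edg) ↔ e ∈ (↑G : Set Edg)) :=
    fun e he => hag e (ls_exm hst hy he)
  have hent : ((A - 1, y, true) : Edg) ∈ (↑G : Set Edg) := by
    rw [← hag _ ?_]
    · exact hst.ent
    · apply t3_edge_near
      right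
      unfold t3_in
      simp only [tgt_true]
      omega
  refine ⟨Y, T, strand_congr hst hex hent, fun s hs => ?_⟩
  rw [orb_congr hex hs]
  exact hy s hs

theorem ls_loc (a : ℕ) (A y : ℤ) (F : Finset Edg) :
    LS a A y F ↔ LS a A y (F ∩ t3_B (A, y) (8 * a + 6)) := by
  have h : F ∩ t3_B (A, y) (8 * a + 6) =
      F ∩ t3_B (A, y) (8 * a + 6) ∩ t3_B (A, y) (8 * a + 6) := by
    rw [Finset.inter_assoc, Finset.inter_self]
  exact ⟨ls_mono h, ls_mono h.symm⟩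

/-- Two arms from `v` to all distances `h ≤ H` which fit into the box `[b, b + n] × [c, c + n]`. -/
def TwA (n : ℕ) (b c : ℤ) (H : ℤ) (F : Finset Edg) (v : Vtx) : Prop :=
  ∀ h : ℕ, 1 ≤ h → (h : ℤ) ≤ H → b + h ≤ v.1 → v.1 + h ≤ b + n → c + h ≤ v.2 → v.2 + h ≤ c + n →
    Tw v h (↑F : Set Edg)

theorem ph_comp {C : ℝ} (hC : 1 ≤ C) {a : ℕ} (ha : 5 ≤ a) {k : ℤ} (hk : 1 ≤ k) {h : ℕ}
    (hh : (h : ℤ) = a * (k - 2)) (hm : 8 * a + 7 ≤ h) :
    C * (((8 * a + 7 : ℕ) : ℝ) / h) ^ (1/4 : ℝ) ≤ 4 * C * ph 1 (1/4) k := by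
  unfold ph
  rw [if_neg (by omega), one_mul]
  have ha0 : (0:ℤ) < a := by omega
  have hk3 : 3 ≤ k := by
    by_contra hcon
    push Not at hcon
    have : (a:ℤ) * (k - 2) ≤ 0 := by
      apply mul_nonpos_of_nonneg_of_nonpos ha0.le
      omega
    omega
  have hkR : (3:ℝ) ≤ k := by exact_mod_cast hk3
  have haR : (5:ℝ) ≤ a := by exact_mod_cast ha
  have hhR : (h:ℝ) = a * ((k:ℝ) - 2) := by exact_mod_cast hh
  have h1 : (((8 * a + 7 : ℕ) : ℝ) / h) ≤ 256 * (1 / (k : ℝ)) := by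
    rw [hhR, div_le_iff₀ (by nlinarith)]
    push_cast
    rw [show 256 * (1 / (k:ℝ)) * (a * ((k:ℝ) - 2)) = 256 * a * (((k:ℝ) - 2) / k) by ring]
    have h2 : (1:ℝ) / 3 ≤ ((k:ℝ) - 2) / k := by
      rw [div_le_div_iff₀ (by norm_num) (by linarith)]
      linarith
    nlinarith
  have h3 : (((8 * a + 7 : ℕ) : ℝ) / h) ^ (1/4 : ℝ) ≤ (256 * (1 / (k : ℝ))) ^ (1/4 : ℝ) :=
    Real.rpow_le_rpow (by positivity) h1 (by norm_num)
  have h4 : (256 * (1 / (k : ℝ))) ^ (1/4 : ℝ) = 4 * (k:ℝ) ^ (-(1/4) : ℝ) := by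
    have e1 : (256:ℝ) ^ (1/4 : ℝ) = 4 := by
      rw [show (256:ℝ) = 4 ^ (4:ℝ) by norm_num, ← Real.rpow_mul (by norm_num)]
      norm_num
    have e2 : (1 / (k:ℝ)) ^ (1/4 : ℝ) = (k:ℝ) ^ (-(1/4) : ℝ) := by
      rw [Real.rpow_neg (by linarith), one_div (k:ℝ), Real.inv_rpow (by linarith)]
    rw [Real.mul_rpow (by norm_num) (by positivity), e1, e2]
  rw [h4] at h3
  calc C * (((8 * a + 7 : ℕ) : ℝ) / h) ^ (1/4 : ℝ) ≤ C * (4 * (k:ℝ) ^ (-(1/4) : ℝ)) :=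
        mul_le_mul_of_nonneg_left h3 (by linarith)
    _ = 4 * C * (k:ℝ) ^ (-(1/4) : ℝ) := by ring

theorem ph_small {C : ℝ} (hC : 1 ≤ C) {k : ℤ} (hk : k ≤ 16) : 1 ≤ 4 * C * ph 1 (1/4) k := by
  unfold ph
  split_ifs with h
  · linarith
  · rw [one_mul]
    have hk0 : (0:ℝ) < k := by exact_mod_cast (by omega : 0 < k)
    have hk1 : (k:ℝ) ≤ 16 := by exact_mod_cast hk
    have h1 : (16:ℝ) ^ (-(1/4) : ℝ) ≤ (k:ℝ) ^ (-(1/4) : ℝ) :=
      Real.rpow_le_rpow_of_nonpos hk0 hk1 (by norm_num)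
    have h2 : (16:ℝ) ^ (-(1/4) : ℝ) = 1 / 2 := by
      rw [show (16:ℝ) = 2 ^ (4:ℝ) by norm_num, ← Real.rpow_mul (by norm_num)]
      norm_num
    rw [h2] at h1
    nlinarith

/-- The probability for one vertex. -/
theorem one_le {C : ℝ} (hC : 1 ≤ C) (hA : ∀ r R : ℕ, 1 ≤ r → r ≤ R → ∀ (c1 c2 : ℤ)
    (S : Finset Edg), PQ (1/2) S (fun F => Crs c1 c2 r R ↑F ∧ DCrs c1 c2 r R (↑(S \ F) : Set Edg)) ≤
      C * ((r : ℝ) / R) ^ (1/4 : ℝ)) {n a : ℕ} (ha : 5 ≤ a) {b c H A y k : ℤ}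
    (hkH : a * (k - 2) ≤ H) (h1 : b + a * (k - 2) ≤ A) (h2 : A + a * (k - 2) ≤ b + n)
    (h3 : c + a * (k - 2) ≤ y) (h4 : y + a * (k - 2) ≤ c + n) :
    Pr (fun _ => (1/2:ℝ)) (RE b (b + n) c (c + n))
      (fun F => LS a A y F ∧ TwA n b c H F (A, y)) ≤
    Pr (fun _ => (1/2:ℝ)) (RE b (b + n) c (c + n)) (fun F => LS a A y F) *
      (4 * C * ph 1 (1/4) k) := by
  have hok : Ok (fun _ : Edg => (1/2:ℝ)) := fun _ => ⟨by norm_num, by norm_num⟩
  have hp0 := Pr_nonneg hok (RE b (b + n) c (c + n)) (fun F => LS a A y F)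
  have ha0 : (0:ℤ) < a := by omega
  by_cases hm : (a:ℤ) * (k - 2) < 8 * a + 7
  · have h5 : k ≤ 16 := by
      by_contra hcon
      push Not at hcon
      have : (a:ℤ) * 15 ≤ a * (k - 2) := mul_le_mul_of_nonneg_left (by omega) ha0.le
      omega
    refine (Pr_mono hok (fun F _ hF => hF.1)).trans ?_
    exact le_mul_of_one_le_right hp0 (ph_small hC h5)
  · push Not at hm
    obtain ⟨h, hh⟩ : ∃ h : ℕ, (h : ℤ) = a * (k - 2) :=
      ⟨((a:ℤ) * (k - 2)).toNat, Int.toNat_of_nonneg (by omega)⟩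
    have hk1 : 1 ≤ k := by
      by_contra hcon
      push Not at hcon
      have : (a:ℤ) * (k - 2) ≤ 0 := by
        apply mul_nonpos_of_nonneg_of_nonpos ha0.le
        omega
      omega
    rw [← hh] at hkH h1 h2 h3 h4 hm
    have hmh : 8 * a + 7 ≤ h := by omega
    have hX : ((8 * a + 7 : ℕ) : ℤ) - 1 = 8 * a + 6 := by push_cast; ring
    have s1 : t3_B (A, y) (8 * a + 6) ⊆ RE b (b + n) c (c + n) := by
      unfold t3_B
      apply RE_subset <;> simp only <;> omega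
    have s2 : t3_B (A, y) h \ t3_B (A, y) (8 * a + 6) ⊆ RE b (b + n) c (c + n) := by
      refine Finset.sdiff_subset.trans ?_
      unfold t3_B
      apply RE_subset <;> simp only <;> omega
    have hmono : Pr (fun _ => (1/2:ℝ)) (RE b (b + n) c (c + n))
        (fun F => LS a A y F ∧ TwA n b c H F (A, y)) ≤
        Pr (fun _ => (1/2:ℝ)) (RE b (b + n) c (c + n))
        (fun F => LS a A y F ∧
          t3_An (t3_B (A, y) h \ t3_B (A, y) (8 * a + 6)) (A, y) (8 * a + 7) h F) := by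
      apply Pr_mono hok
      rintro F _ ⟨f1, f2⟩
      refine ⟨f1, ?_⟩
      have f3 := f2 h (by omega) hkH (by simpa using h1) (by simpa using h2) (by simpa using h3)
        (by simpa using h4)
      have f4 := tp_far (h := h) (8 * a + 7) (by omega) f3
      rw [hX] at f4
      exact f4
    rw [Pr_indep s1 s2 Finset.disjoint_sdiff (fun F _ => ls_loc a A y F)
      (fun F _ => t3_loc _ _ _ _ F)] at hmono
    refine hmono.trans (mul_le_mul_of_nonneg_left ?_ hp0)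
    refine le_trans (t3_pr hA s2 (A, y) (by omega) hmh) ?_
    exact ph_comp hC ha hk1 hh hmh

end Pool.Agent.V5helper99.HR
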