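import Pool.Agent.H342R3.Tig.ARZ

/-!
# Parametrisation of curves which can be cut into few small pieces
-/

set_option autoImplicit false
set_option maxHeartbeats 4000000

namespace Pool.Agent.V5helper99.HR

open H342L H342T MeasureTheory TopologicalSpace Filter Topology

/-- The new parameter, with weights. -/
theorem par (w : ℕ → ℝ) (hwp : ∀ j, 0 < w j) (hw1 : HasSum w 1) (D : ℕ → ℕ) (r : ℕ → ℝ)
    (γ : C(unitInterval, ℂ)) (h : ∀ j : ℕ, Cut (D j) (r j) γ) :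
    ∃ φ : unitInterval ≃o unitInterval, ∀ (j : ℕ) (s s' : unitInterval),
      dist (φ s) (φ s') < w j / (2 * max 1 (D j : ℝ)) → dist (γ s) (γ s') ≤ 2 * r j := by
  choose k t hk hkD ht0 ht1 htm hγ using h
  let g : ℕ → ℝ → ℝ := fun j => ARZ_g (k j) (t j)
  have hw : Summable w := hw1.summable
  have hwsum : ∑' j, w j = 1 := hw1.tsum_eq
  have hw0 : ∀ j, 0 ≤ w j := fun j => (hwp j).le
  have hg0 : ∀ j x, 0 ≤ g j x := fun j x => ARZ_g_nonneg x
  have hg1 : ∀ j x, g j x ≤ 1 := fun j x => ARZ_g_le (hk j) x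
  have hgm : ∀ j, Monotone (g j) := fun j => ARZ_g_mono (htm j)
  have hsum : ∀ x, Summable fun j => w j * g j x := fun x =>
    Summable.of_nonneg_of_le (fun j => mul_nonneg (hw0 j) (hg0 j x))
      (fun j => by
        calc w j * g j x ≤ w j * 1 := mul_le_mul_of_nonneg_left (hg1 j x) (hw0 j)
          _ = w j := mul_one _) hw
  let Φ : ℝ → ℝ := fun x => (x + ∑' j, w j * g j x) / 2
  have hΦc : Continuous Φ := by
    have h1 : Continuous fun x => ∑' j, w j * g j x := by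
      refine continuous_tsum (fun j => continuous_const.mul (ARZ_g_cont _ _)) hw fun j x => ?_
      rw [Real.norm_eq_abs, abs_of_nonneg (mul_nonneg (hw0 j) (hg0 j x))]
      calc w j * g j x ≤ w j * 1 := mul_le_mul_of_nonneg_left (hg1 j x) (hw0 j)
        _ = w j := mul_one _
    exact (continuous_id.add h1).div_const 2
  have hdiff : ∀ x y, x ≤ y → Φ y - Φ x = ((y - x) + ∑' j, w j * (g j y - g j x)) / 2 := by
    intro x y _
    have h1 : ∑' j, w j * (g j y - g j x) = ∑' j, w j * g j y - ∑' j, w j * g j x := by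
      rw [← (hsum y).tsum_sub (hsum x)]
      congr 1
      funext j
      ring
    rw [h1]
    show (y + ∑' j, w j * g j y) / 2 - (x + ∑' j, w j * g j x) / 2 = _
    ring
  have hsumd : ∀ x y, Summable fun j => w j * (g j y - g j x) := by
    intro x y
    have := (hsum y).sub (hsum x)
    refine this.congr fun j => ?_
    ring
  have hΦm : StrictMono Φ := by
    intro x y hxy
    have h1 := hdiff x y hxy.le
    have h2 : 0 ≤ ∑' j, w j * (g j y - g j x) :=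
      tsum_nonneg fun j => mul_nonneg (hw0 j) (sub_nonneg.mpr (hgm j hxy.le))
    linarith
  have hΦ0 : Φ 0 = 0 := by
    show (0 + ∑' j, w j * g j 0) / 2 = 0
    have : ∀ j, w j * g j 0 = 0 := fun j => by
      rw [show g j 0 = 0 from ARZ_g_zero (ht0 j) (htm j), mul_zero]
    simp only [this, tsum_zero]
    norm_num
  have hΦ1 : Φ 1 = 1 := by
    show (1 + ∑' j, w j * g j 1) / 2 = 1
    have : ∀ j, w j * g j 1 = w j := fun j => by
      rw [show g j 1 = 1 from ARZ_g_one (hk j) (ht1 j) (htm j), mul_one]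
    simp only [this, hwsum]
    norm_num
  let f : unitInterval → unitInterval := fun s => ⟨Φ s, by
    constructor
    · rw [← hΦ0]; exact hΦm.monotone s.2.1
    · rw [← hΦ1]; exact hΦm.monotone s.2.2⟩
  have hfm : StrictMono f := fun s s' hs => hΦm hs
  have hfs : Function.Surjective f := by
    intro y
    have h1 := intermediate_value_Icc (zero_le_one' ℝ) hΦc.continuousOn
    rw [hΦ0, hΦ1] at h1
    obtain ⟨x, hx, hxy⟩ := h1 y.2
    exact ⟨⟨x, hx⟩, Subtype.ext hxy⟩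
  let φ : unitInterval ≃o unitInterval := StrictMono.orderIsoOfSurjective f hfm hfs
  have hφ : ∀ s, ((φ s : unitInterval) : ℝ) = Φ s := fun s => rfl
  refine ⟨φ, ?_⟩
  have key : ∀ (j : ℕ) (s s' : unitInterval), s ≤ s' →
      dist (φ s) (φ s') < w j / (2 * max 1 (D j : ℝ)) →
      dist (γ s) (γ s') ≤ 2 * r j := by
    intro j s s' hs hd
    have hs' : (s : ℝ) ≤ s' := hs
    have h1 : Φ s' - Φ s < w j / (2 * max 1 (D j : ℝ)) := by
      refine lt_of_le_of_lt ?_ hd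
      rw [dist_comm, Subtype.dist_eq, Real.dist_eq, hφ, hφ]
      exact le_abs_self _
    have h2 := hdiff s s' hs'
    have h3 : w j * (g j s' - g j s) ≤ ∑' i, w i * (g i s' - g i s) :=
      (hsumd s s').le_tsum j fun i _ => mul_nonneg (hw0 i) (sub_nonneg.mpr (hgm i hs'))
    have hM : (0 : ℝ) < max 1 (D j : ℝ) := lt_max_of_lt_left one_pos
    have h4 : w j * (g j s' - g j s) < w j * (1 / max 1 (D j : ℝ)) := by
      have e : w j * (1 / max 1 (D j : ℝ)) = 2 * (w j / (2 * max 1 (D j : ℝ))) := by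
        field_simp
      rw [e]
      linarith
    have h5 : g j s' - g j s < 1 / max 1 (D j : ℝ) := lt_of_mul_lt_mul_left h4 (hw0 j)
    have h6 : (1 : ℝ) / max 1 (D j : ℝ) ≤ 1 / (k j : ℝ) := by
      apply one_div_le_one_div_of_le
      · exact_mod_cast hk j
      · exact le_max_of_le_right (by exact_mod_cast hkD j)
    exact ARZ_close (hk j) (ht0 j) (ht1 j) (htm j) (hγ j) s s' hs (lt_of_lt_of_le h5 h6)
  intro j s s' hd
  rcases le_total s s' with hs | hs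
  · exact key j s s' hs hd
  · rw [dist_comm] at hd ⊢
    exact key j s' s hs hd

/-- The modulus of continuity `x ^ (4/7) (1 + |log x|) ^ β`. -/
noncomputable def psi (β x : ℝ) : ℝ := x ^ (4/7 : ℝ) * (1 + |Real.log x|) ^ β

theorem psi_nonneg {β x : ℝ} (hx : 0 ≤ x) : 0 ≤ psi β x := by
  unfold psi
  have : 0 ≤ |Real.log x| := abs_nonneg _
  positivity

theorem psi_ge {β x : ℝ} (hβ : 0 ≤ β) (hx : 0 ≤ x) : x ^ (4/7 : ℝ) ≤ psi β x := by
  unfold psi
  have h1 : 0 ≤ |Real.log x| := abs_nonneg _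
  have h2 : (1:ℝ) ≤ (1 + |Real.log x|) ^ β := Real.one_le_rpow (by linarith) hβ
  exact le_mul_of_one_le_right (by positivity) h2

/-- The curve has a parametrisation with the modulus of continuity `K psi`. -/
def Reg (β K : ℝ) (γ : C(unitInterval, ℂ)) : Prop :=
  ∃ φ : unitInterval ≃o unitInterval, ∀ s s' : unitInterval,
    dist (rep γ φ s) (rep γ φ s') ≤ K * psi β (dist s s')

/-- From the numbers of pieces to the modulus of continuity. -/
theorem reg_of_cut {u : ℝ} (hu : 1 < u) {Λ : ℝ} (hΛ : 1 ≤ Λ) : ∃ K : ℝ, 0 < K ∧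
    ∀ γ : C(unitInterval, ℂ), (∀ s s', dist (γ s) (γ s') ≤ 2) →
      (∀ j : ℕ, Cut ⌈Λ * (2 ^ (7/4 : ℝ)) ^ j * ((j:ℝ) + 1) ^ u⌉₊ ((1/2) ^ j) γ) →
      Reg (8 / 7 * u) K γ := by
  have hS : Summable fun j : ℕ => ((j:ℝ) + 1) ^ (-u) := by
    have h1 : Summable fun j : ℕ => ((j:ℝ)) ^ (-u) := Real.summable_nat_rpow.2 (by linarith)
    have h2 := (summable_nat_add_iff 1).2 h1
    refine h2.congr fun j => ?_
    push_cast
    rfl
  set S : ℝ := ∑' j : ℕ, ((j:ℝ) + 1) ^ (-u) with hSd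
  have hterm : ∀ j : ℕ, 0 < ((j:ℝ) + 1) ^ (-u) := fun j => by positivity
  have hS1 : 1 ≤ S := by
    have := hS.le_tsum 0 fun i _ => (hterm i).le
    simpa using this
  have hS0 : 0 < S := by linarith
  set w : ℕ → ℝ := fun j => ((j:ℝ) + 1) ^ (-u) / S with hw
  have hw1 : HasSum w 1 := by
    have := hS.hasSum.div_const S
    rw [div_self hS0.ne'] at this
    exact this
  have hwp : ∀ j, 0 < w j := fun j => div_pos (hterm j) hS0
  set c1 : ℝ := 1 / (4 * Λ * S) with hc1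
  have hc10 : 0 < c1 := by positivity
  have hc11 : c1 ≤ 1 := by
    rw [hc1, div_le_one (by positivity)]
    nlinarith
  set σ : ℕ → ℝ := fun j => c1 * ((2 ^ (7/4 : ℝ)) ^ j)⁻¹ * ((j:ℝ) + 1) ^ (-(2 * u)) with hσ
  have hb1 : (1:ℝ) ≤ 2 ^ (7/4 : ℝ) := Real.one_le_rpow (by norm_num) (by norm_num)
  have hb0 : (0:ℝ) < 2 ^ (7/4 : ℝ) := by positivity
  -- the thresholds
  have hthr : ∀ j : ℕ, σ j ≤ w j / (2 * max 1 ((⌈Λ * (2 ^ (7/4 : ℝ)) ^ j * ((j:ℝ) + 1) ^ u⌉₊ : ℕ) : ℝ)) := by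
    intro j
    have hj1 : (1:ℝ) ≤ ((j:ℝ) + 1) ^ u := Real.one_le_rpow (by linarith [(Nat.cast_nonneg j : (0:ℝ) ≤ j)])
      (by linarith)
    have hp1 : (1:ℝ) ≤ (2 ^ (7/4 : ℝ)) ^ j := one_le_pow₀ hb1
    have hX1 : 1 ≤ Λ * (2 ^ (7/4 : ℝ)) ^ j * ((j:ℝ) + 1) ^ u := by
      have : 1 ≤ Λ * (2 ^ (7/4 : ℝ)) ^ j := one_le_mul_of_one_le_of_one_le hΛ hp1
      exact one_le_mul_of_one_le_of_one_le this hj1
    set X : ℝ := Λ * (2 ^ (7/4 : ℝ)) ^ j * ((j:ℝ) + 1) ^ u with hX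
    have hmax : max 1 ((⌈X⌉₊ : ℕ) : ℝ) ≤ 2 * X := by
      have h1 := Nat.ceil_lt_add_one (a := X) (by linarith)
      apply max_le <;> linarith
    have hmax0 : (0:ℝ) < max 1 ((⌈X⌉₊ : ℕ) : ℝ) := lt_max_of_lt_left one_pos
    have h2 : w j / (4 * X) ≤ w j / (2 * max 1 ((⌈X⌉₊ : ℕ) : ℝ)) := by
      apply div_le_div_of_nonneg_left (hwp j).le (by positivity)
      linarith
    refine le_trans (le_of_eq ?_) h2
    have e1 : ((j:ℝ) + 1) ^ (-(2 * u)) = ((j:ℝ) + 1) ^ (-u) * (((j:ℝ) + 1) ^ u)⁻¹ := by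
      rw [← Real.rpow_neg (by positivity), ← Real.rpow_add (by positivity)]
      congr 1
      ring
    simp only [hσ, hw]
    rw [e1, hX, hc1]
    field_simp
  have hσ0 : ∀ j, 0 < σ j := fun j => by
    simp only [hσ]
    positivity
  -- the thresholds tend to zero
  have hσlim : ∀ x : ℝ, 0 < x → ∃ j, σ j ≤ x := by
    intro x hx
    obtain ⟨j, hj⟩ := pow_unbounded_of_one_lt (1 / x) (show (1:ℝ) < 2 ^ (7/4 : ℝ) from
      Real.one_lt_rpow (by norm_num) (by norm_num))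
    refine ⟨j, ?_⟩
    have h1 : ((2 ^ (7/4 : ℝ)) ^ j)⁻¹ ≤ x := by
      rw [inv_le_comm₀ (by positivity) hx]
      rw [one_div] at hj
      exact hj.le
    have h2 : ((j:ℝ) + 1) ^ (-(2 * u)) ≤ 1 :=
      Real.rpow_le_one_of_one_le_of_nonpos (by linarith [(Nat.cast_nonneg j : (0:ℝ) ≤ j)])
        (by linarith)
    have h3 : 0 ≤ ((j:ℝ) + 1) ^ (-(2 * u)) := by positivity
    have h4 : 0 ≤ ((2 ^ (7/4 : ℝ) : ℝ) ^ j)⁻¹ := by positivity
    calc σ j = c1 * ((2 ^ (7/4 : ℝ)) ^ j)⁻¹ * ((j:ℝ) + 1) ^ (-(2 * u)) := rfl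
      _ ≤ 1 * ((2 ^ (7/4 : ℝ)) ^ j)⁻¹ * 1 := by gcongr
      _ = ((2 ^ (7/4 : ℝ)) ^ j)⁻¹ := by ring
      _ ≤ x := h1
  set β : ℝ := 8 / 7 * u with hβ
  have hβ0 : 0 ≤ β := by rw [hβ]; positivity
  refine ⟨2 * (σ 0) ^ (-(4/7) : ℝ) + 4 * c1 ^ (-(4/7) : ℝ) * 2 ^ β, ?_, ?_⟩
  · have := hσ0 0
    positivity
  intro γ hdiam hcut
  obtain ⟨φ, hφ⟩ := par w hwp hw1 _ _ γ hcut
  have hK1 : 0 ≤ 2 * (σ 0) ^ (-(4/7) : ℝ) := by
    have := hσ0 0
    positivity
  have hK2 : 0 ≤ 4 * c1 ^ (-(4/7) : ℝ) * 2 ^ β := by positivity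
  refine ⟨φ.symm, fun s s' => ?_⟩
  rw [rep_apply, rep_apply]
  set x : ℝ := dist s s' with hx
  have hx0 : 0 ≤ x := dist_nonneg
  have hxφ : dist (φ (φ.symm s)) (φ (φ.symm s')) = x := by
    rw [OrderIso.apply_symm_apply, OrderIso.apply_symm_apply]
  rcases eq_or_lt_of_le hx0 with h0 | hxp
  · have h1 : s = s' := dist_eq_zero.1 h0.symm
    rw [h1, dist_self]
    have := psi_nonneg (β := β) hx0
    positivity
  by_cases hbig : σ 0 ≤ x
  · have h1 : (1:ℝ) ≤ (σ 0) ^ (-(4/7) : ℝ) * psi β x := by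
      have h2 := psi_ge hβ0 hx0
      have h3 : (σ 0) ^ (4/7 : ℝ) ≤ x ^ (4/7 : ℝ) := Real.rpow_le_rpow (hσ0 0).le hbig (by norm_num)
      have h4 : (σ 0) ^ (-(4/7) : ℝ) * (σ 0) ^ (4/7 : ℝ) = 1 := by
        rw [← Real.rpow_add (hσ0 0)]
        norm_num
      have h5 : 0 < (σ 0) ^ (-(4/7) : ℝ) := Real.rpow_pos_of_pos (hσ0 0) _
      calc (1:ℝ) = (σ 0) ^ (-(4/7) : ℝ) * (σ 0) ^ (4/7 : ℝ) := h4.symm
        _ ≤ (σ 0) ^ (-(4/7) : ℝ) * psi β x :=
            mul_le_mul_of_nonneg_left (h3.trans h2) h5.le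
    have h6 := hdiam (φ.symm s) (φ.symm s')
    have h7 := mul_nonneg hK2 (psi_nonneg (β := β) hx0)
    nlinarith
  · push Not at hbig
    -- the scale
    obtain ⟨j, hj1, hj2⟩ : ∃ j, x < σ j ∧ σ (j + 1) ≤ x := by
      have hex := hσlim x hxp
      have h1 := Nat.find_spec hex
      have h2 : Nat.find hex ≠ 0 := by
        intro h
        rw [h] at h1
        exact absurd h1 (not_le.2 hbig)
      obtain ⟨m, hm⟩ := Nat.exists_eq_succ_of_ne_zero h2
      have h3 : ¬ σ m ≤ x := Nat.find_min hex (by omega)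
      refine ⟨m, not_le.1 h3, ?_⟩
      rw [hm] at h1
      exact h1
    have h1 : dist (γ (φ.symm s)) (γ (φ.symm s')) ≤ 2 * (1/2) ^ j := by
      apply hφ j
      rw [hxφ]
      exact hj1.trans_le (hthr j)
    have hj0 : (0:ℝ) ≤ j := Nat.cast_nonneg j
    -- the scale in terms of x
    have h2 : ((1:ℝ)/2) ^ (j + 1) ≤ c1 ^ (-(4/7) : ℝ) * x ^ (4/7 : ℝ) * ((j:ℝ) + 2) ^ β := by
      have e1 : ((2 ^ (7/4 : ℝ)) ^ (j + 1))⁻¹ ≤ c1⁻¹ * x * ((j:ℝ) + 2) ^ (2 * u) := by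
        have h3 : c1 * ((2 ^ (7/4 : ℝ)) ^ (j + 1))⁻¹ * (((j + 1 : ℕ) : ℝ) + 1) ^ (-(2 * u)) ≤ x := hj2
        have e2 : (((j + 1 : ℕ) : ℝ) + 1) = (j:ℝ) + 2 := by push_cast; ring
        rw [e2, Real.rpow_neg (by positivity)] at h3
        have h4 : 0 < ((j:ℝ) + 2) ^ (2 * u) := by positivity
        have gen : ∀ A Y : ℝ, 0 < Y → c1 * A * Y⁻¹ ≤ x → A ≤ c1⁻¹ * x * Y := by
          intro A Y hY hA
          have e5 : c1⁻¹ * (c1 * A * Y⁻¹) * Y = A := by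
            calc c1⁻¹ * (c1 * A * Y⁻¹) * Y = (c1⁻¹ * c1) * A * (Y⁻¹ * Y) := by ring
              _ = A := by rw [inv_mul_cancel₀ hc10.ne', inv_mul_cancel₀ hY.ne', one_mul, mul_one]
          calc A = c1⁻¹ * (c1 * A * Y⁻¹) * Y := e5.symm
            _ ≤ c1⁻¹ * x * Y := by gcongr
        exact gen _ _ h4 h3
      have e3 : ((1:ℝ)/2) ^ (j + 1) = (((2 ^ (7/4 : ℝ)) ^ (j + 1))⁻¹) ^ (4/7 : ℝ) := by
        have e6 : ((2:ℝ) ^ (7/4 : ℝ)) ^ (j + 1) = (2:ℝ) ^ (7/4 * ((j + 1 : ℕ) : ℝ)) := by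
          rw [Real.rpow_mul (by norm_num), Real.rpow_natCast]
        rw [e6, Real.inv_rpow (by positivity), ← Real.rpow_mul (by norm_num)]
        have e7 : (7/4 : ℝ) * ((j + 1 : ℕ) : ℝ) * (4/7) = ((j + 1 : ℕ) : ℝ) := by ring
        rw [e7, Real.rpow_natCast, one_div, inv_pow]
      rw [e3]
      have e4 : c1 ^ (-(4/7) : ℝ) * x ^ (4/7 : ℝ) * ((j:ℝ) + 2) ^ β =
          (c1⁻¹ * x * ((j:ℝ) + 2) ^ (2 * u)) ^ (4/7 : ℝ) := by
        rw [Real.mul_rpow (by positivity) (by positivity), Real.mul_rpow (by positivity) hx0,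
          ← Real.rpow_mul (by positivity), Real.inv_rpow hc10.le, ← Real.rpow_neg hc10.le]
        congr 2
        rw [hβ]
        ring
      rw [e4]
      exact Real.rpow_le_rpow (by positivity) e1 (by norm_num)
    have h3 : (j:ℝ) + 2 ≤ 2 * (1 + |Real.log x|) := by
      have h4 : x < ((2 ^ (7/4 : ℝ)) ^ j)⁻¹ := by
        refine hj1.trans_le ?_
        have h5 : ((j:ℝ) + 1) ^ (-(2 * u)) ≤ 1 :=
          Real.rpow_le_one_of_one_le_of_nonpos (by linarith) (by linarith)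
        have h6 : 0 ≤ ((j:ℝ) + 1) ^ (-(2 * u)) := by positivity
        calc σ j = c1 * ((2 ^ (7/4 : ℝ)) ^ j)⁻¹ * ((j:ℝ) + 1) ^ (-(2 * u)) := rfl
          _ ≤ 1 * ((2 ^ (7/4 : ℝ)) ^ j)⁻¹ * 1 := by gcongr
          _ = ((2 ^ (7/4 : ℝ)) ^ j)⁻¹ := by ring
      have h5 : Real.log x < -(j * (7/4 * Real.log 2)) := by
        have h6 := Real.log_lt_log hxp h4
        rw [Real.log_inv, Real.log_pow, Real.log_rpow (by norm_num)] at h6
        exact h6
      have h6 : (0.69:ℝ) < Real.log 2 := by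
        have := Real.log_two_gt_d9
        linarith
      have h7 : (j:ℝ) ≤ |Real.log x| := by
        rw [le_abs]
        right
        nlinarith
      linarith
    have h4 : ((j:ℝ) + 2) ^ β ≤ 2 ^ β * (1 + |Real.log x|) ^ β := by
      have h5 : 0 ≤ |Real.log x| := abs_nonneg _
      rw [← Real.mul_rpow (by norm_num) (by linarith)]
      exact Real.rpow_le_rpow (by positivity) h3 hβ0
    have h5 : (1:ℝ) / 2 * (1/2) ^ j = (1/2) ^ (j + 1) := by rw [pow_succ]; ring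
    have h6 : c1 ^ (-(4/7) : ℝ) * x ^ (4/7 : ℝ) * ((j:ℝ) + 2) ^ β ≤
        c1 ^ (-(4/7) : ℝ) * x ^ (4/7 : ℝ) * (2 ^ β * (1 + |Real.log x|) ^ β) :=
      mul_le_mul_of_nonneg_left h4 (by positivity)
    have h7 : c1 ^ (-(4/7) : ℝ) * x ^ (4/7 : ℝ) * (2 ^ β * (1 + |Real.log x|) ^ β) =
        c1 ^ (-(4/7) : ℝ) * 2 ^ β * psi β x := by
      unfold psi
      ring
    have h8 := mul_nonneg hK1 (psi_nonneg (β := β) hx0)
    calc dist (γ (φ.symm s)) (γ (φ.symm s')) ≤ 2 * (1/2) ^ j := h1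
      _ = 4 * (1/2) ^ (j + 1) := by rw [pow_succ]; ring
      _ ≤ 4 * (c1 ^ (-(4/7) : ℝ) * 2 ^ β * psi β x) := by
          apply mul_le_mul_of_nonneg_left _ (by norm_num)
          exact h2.trans (h6.trans (le_of_eq h7))
      _ ≤ (2 * (σ 0) ^ (-(4/7) : ℝ) + 4 * c1 ^ (-(4/7) : ℝ) * 2 ^ β) * psi β x := by
          linarith

end Pool.Agent.V5helper99.HR
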