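import Pool.Agent.V5helper99.HR.Tr
import Pool.Agent.V5helper99.HR.Par
import Pool.Agent.H342R3.Tig.RNG

/-!
# The number of the small pieces of the tracing path, for all scales at once
-/

set_option autoImplicit false
set_option maxHeartbeats 4000000

namespace Pool.Agent.V5helper99.HR

open H974 H342P H342P.Plain H342L H984P Finset H342T

theorem ex_N4L {K : ℝ} {θ : ℝ} (h : ∀ (n a : ℕ) (b c H : ℤ), 5 ≤ a → a ≤ n → θ * n ≤ H →
      Ex (fun _ => (1/2:ℝ)) (RE b (b + n) c (c + n)) (fun F => (NSL n a b c H F : ℝ)) ≤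
        K * ((n:ℝ) / a) ^ (7/4 : ℝ)) {n a : ℕ} {H : ℤ} (ha : 5 ≤ a) (han : a ≤ n)
    (hH : θ * n ≤ H) :
    Ex (fun _ => (1/2:ℝ)) (RE 0 n 0 n) (fun F => (N4L n a H F : ℝ)) ≤
      4 * K * ((n:ℝ) / a) ^ (7/4 : ℝ) := by
  have hmap : ∀ (S : Finset Edg) (f : Finset Edg → ℝ), Ex (fun _ => (1/2:ℝ)) S (fun F => f (rM F)) =
      Ex (fun _ => (1/2:ℝ)) (rM S) f := fun S f => (Ex_map (fun _ => (1/2:ℝ)) _ S f).symm
  have r1 : rM (RE 0 n 0 n) = RE (-n) (-n + n) 0 (0 + n) := by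
    rw [rot_RE]; simp
  have r2 : rM (RE (-n) (-n + n) 0 (0 + n)) = RE (-n) (-n + n) (-n) (-n + n) := by
    rw [rot_RE]; simp
  have r3 : rM (RE (-n) (-n + n) (-n) (-n + n)) = RE 0 (0 + n) (-n) (-n + n) := by
    rw [rot_RE]; simp
  have h1 : Ex (fun _ => (1/2:ℝ)) (RE 0 n 0 n) (fun F => (N4L n a H F : ℝ)) =
      Ex (fun _ => (1/2:ℝ)) (RE 0 n 0 n) (fun F => (NSL n a 0 0 H F : ℝ)) +
      Ex (fun _ => (1/2:ℝ)) (RE 0 n 0 n) (fun F => (NSL n a (-n) 0 H (rM F) : ℝ)) +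
      Ex (fun _ => (1/2:ℝ)) (RE 0 n 0 n) (fun F => (NSL n a (-n) (-n) H (rM (rM F)) : ℝ)) +
      Ex (fun _ => (1/2:ℝ)) (RE 0 n 0 n) (fun F => (NSL n a 0 (-n) H (rM (rM (rM F))) : ℝ)) := by
    rw [← Ex_add, ← Ex_add, ← Ex_add]
    refine Ex_congr fun F _ => ?_
    unfold N4L
    push_cast
    ring
  have e0 := h n a 0 0 H ha han hH
  have e1 := h n a (-n) 0 H ha han hH
  have e2 := h n a (-n) (-n) H ha han hH
  have e3 := h n a 0 (-n) H ha han hH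
  rw [zero_add] at e0
  have f1 : Ex (fun _ => (1/2:ℝ)) (RE 0 n 0 n) (fun F => (NSL n a (-n) 0 H (rM F) : ℝ)) =
      Ex (fun _ => (1/2:ℝ)) (RE (-n) (-n + n) 0 (0 + n)) (fun F => (NSL n a (-n) 0 H F : ℝ)) := by
    rw [hmap _ (fun F => (NSL n a (-n) 0 H F : ℝ)), r1]
  have f2 : Ex (fun _ => (1/2:ℝ)) (RE 0 n 0 n) (fun F => (NSL n a (-n) (-n) H (rM (rM F)) : ℝ)) =
      Ex (fun _ => (1/2:ℝ)) (RE (-n) (-n + n) (-n) (-n + n))
        (fun F => (NSL n a (-n) (-n) H F : ℝ)) := by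
    rw [hmap _ (fun F => (NSL n a (-n) (-n) H (rM F) : ℝ)), r1,
      hmap _ (fun F => (NSL n a (-n) (-n) H F : ℝ)), r2]
  have f3 : Ex (fun _ => (1/2:ℝ)) (RE 0 n 0 n) (fun F => (NSL n a 0 (-n) H (rM (rM (rM F))) : ℝ)) =
      Ex (fun _ => (1/2:ℝ)) (RE 0 (0 + n) (-n) (-n + n))
        (fun F => (NSL n a 0 (-n) H F : ℝ)) := by
    rw [hmap _ (fun F => (NSL n a 0 (-n) H (rM (rM F)) : ℝ)), r1,
      hmap _ (fun F => (NSL n a 0 (-n) H (rM F) : ℝ)), r2,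
      hmap _ (fun F => (NSL n a 0 (-n) H F : ℝ)), r3]
  rw [h1, f1, f2, f3]
  linarith

theorem two_pow_rpow (j : ℕ) : ((2:ℝ) ^ j) ^ (7/4 : ℝ) = ((2:ℝ) ^ (7/4 : ℝ)) ^ j := by
  rw [← Real.rpow_natCast (2:ℝ) j, ← Real.rpow_natCast ((2:ℝ) ^ (7/4 : ℝ)) j,
    ← Real.rpow_mul (by norm_num), ← Real.rpow_mul (by norm_num)]
  congr 1
  ring

theorem two_pow_le (j : ℕ) : (2:ℝ) ^ j ≤ ((2:ℝ) ^ (7/4 : ℝ)) ^ j := by
  apply pow_le_pow_left₀ (by norm_num)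
  calc (2:ℝ) = (2:ℝ) ^ (1:ℝ) := (Real.rpow_one _).symm
    _ ≤ (2:ℝ) ^ (7/4 : ℝ) := Real.rpow_le_rpow_of_exponent_le (by norm_num) (by norm_num)

/-- The number of pieces used at the scale `2 ^ (-j)`. -/
noncomputable def XX (u : ℝ) (j : ℕ) : ℝ := (2 ^ (7/4 : ℝ)) ^ j * ((j:ℝ) + 1) ^ u

theorem XX_ge {u : ℝ} (hu : 0 ≤ u) (j : ℕ) : ((2:ℝ) ^ (7/4 : ℝ)) ^ j ≤ XX u j := by
  unfold XX
  exact le_mul_of_one_le_right (by positivity)
    (Real.one_le_rpow (by linarith [(Nat.cast_nonneg j : (0:ℝ) ≤ j)]) hu)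

theorem XX_pos (u : ℝ) (j : ℕ) : 0 < XX u j := by
  unfold XX
  positivity

theorem cut_mono_real {m : ℕ} {r Λ X : ℝ} {γ : C(unitInterval, ℂ)} (h : Cut m r γ)
    (hm : (m : ℝ) ≤ Λ * X) : Cut ⌈Λ * X⌉₊ r γ := by
  refine h.mono ?_ le_rfl
  have := hm.trans (Nat.le_ceil (Λ * X))
  exact_mod_cast this

theorem ceil_fine {n j : ℕ} (hn : 0 < n) {A : ℝ} (hA : (n:ℝ) ≤ A * 2 ^ j) :
    ((⌈(2 / (n:ℝ)) / (1/2) ^ j⌉₊ : ℕ) : ℝ) ≤ (2 + A) * 2 ^ j / n := by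
  have hn' : (0:ℝ) < n := by exact_mod_cast hn
  have e : (2 / (n:ℝ)) / (1/2) ^ j = 2 * 2 ^ j / n := by
    rw [one_div, inv_pow, div_inv_eq_mul]
    ring
  rw [e]
  have h0 : (0:ℝ) ≤ 2 * 2 ^ j / n := by positivity
  have h1 := Nat.ceil_lt_add_one h0
  have h2 : (1:ℝ) ≤ A * 2 ^ j / n := by
    rw [le_div_iff₀ hn']
    linarith
  have h3 : (2 + A) * 2 ^ j / n = 2 * 2 ^ j / n + A * 2 ^ j / n := by ring
  rw [h3]
  linarith

theorem fine_bound {n j : ℕ} (hn : 0 < n) {A B N : ℝ} (hA1 : 1 ≤ A) (hB : 0 ≤ B)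
    (hA : (n:ℝ) ≤ A * 2 ^ j)
    (hN0 : 0 ≤ N) (hN : N ≤ B * (n:ℝ) ^ (7/4 : ℝ)) {u : ℝ} (hu : 0 ≤ u) :
    N * ((⌈(2 / (n:ℝ)) / (1/2) ^ j⌉₊ : ℕ) : ℝ) ≤ (B * (2 + A) * A) * XX u j := by
  have hn' : (0:ℝ) < n := by exact_mod_cast hn
  have h1 := ceil_fine hn hA
  have h2 : (0:ℝ) < 2 ^ j := by positivity
  have e1 : (n:ℝ) ^ (7/4 : ℝ) = n * (n:ℝ) ^ (3/4 : ℝ) := by
    nth_rewrite 2 [← Real.rpow_one (n:ℝ)]
    rw [← Real.rpow_add hn']
    norm_num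
  have h3 : (n:ℝ) ^ (3/4 : ℝ) ≤ A * ((2:ℝ) ^ j) ^ (3/4 : ℝ) := by
    calc (n:ℝ) ^ (3/4 : ℝ) ≤ (A * 2 ^ j) ^ (3/4 : ℝ) :=
          Real.rpow_le_rpow hn'.le hA (by norm_num)
      _ = A ^ (3/4 : ℝ) * ((2:ℝ) ^ j) ^ (3/4 : ℝ) := Real.mul_rpow (by linarith) h2.le
      _ ≤ A * ((2:ℝ) ^ j) ^ (3/4 : ℝ) := by
          apply mul_le_mul_of_nonneg_right _ (by positivity)
          calc A ^ (3/4 : ℝ) ≤ A ^ (1:ℝ) := Real.rpow_le_rpow_of_exponent_le hA1 (by norm_num)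
            _ = A := Real.rpow_one _
  have e2 : (2:ℝ) ^ j * ((2:ℝ) ^ j) ^ (3/4 : ℝ) = ((2:ℝ) ^ (7/4 : ℝ)) ^ j := by
    rw [← two_pow_rpow]
    nth_rewrite 1 [← Real.rpow_one ((2:ℝ) ^ j)]
    rw [← Real.rpow_add h2]
    norm_num
  calc N * ((⌈(2 / (n:ℝ)) / (1/2) ^ j⌉₊ : ℕ) : ℝ)
      ≤ (B * (n:ℝ) ^ (7/4 : ℝ)) * ((2 + A) * 2 ^ j / n) := by gcongr
    _ = B * (2 + A) * 2 ^ j * (n:ℝ) ^ (3/4 : ℝ) := by
        rw [e1]
        field_simp
    _ ≤ B * (2 + A) * 2 ^ j * (A * ((2:ℝ) ^ j) ^ (3/4 : ℝ)) := by gcongr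
    _ = B * (2 + A) * A * ((2:ℝ) ^ j * ((2:ℝ) ^ j) ^ (3/4 : ℝ)) := by ring
    _ = B * (2 + A) * A * ((2:ℝ) ^ (7/4 : ℝ)) ^ j := by rw [e2]
    _ ≤ B * (2 + A) * A * XX u j := by
        apply mul_le_mul_of_nonneg_left (XX_ge hu j)
        positivity

theorem csq_dist {x y : ℂ} (hx : x ∈ csq) (hy : y ∈ csq) : dist x y ≤ 2 := by
  unfold csq at hx hy
  rw [dist_eq_norm]
  refine (Complex.norm_le_abs_re_add_abs_im _).trans ?_
  rw [Complex.sub_re, Complex.sub_im]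
  obtain ⟨⟨a1, a2⟩, a3, a4⟩ := hx
  obtain ⟨⟨b1, b2⟩, b3, b4⟩ := hy
  have h1 : |x.re - y.re| ≤ 1 := by rw [abs_le]; constructor <;> linarith
  have h2 : |x.im - y.im| ≤ 1 := by rw [abs_le]; constructor <;> linarith
  linarith

/-- All the tracing paths of the largest clusters can be cut into few pieces at all scales. -/
def AllCut (n : ℕ) (u Λ : ℝ) (F : Finset Edge) : Prop :=
  ∀ v c, Largest n F v → IsTrace n F v c → (∀ s s', dist (c.path s) (c.path s') ≤ 2) ∧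
    ∀ j : ℕ, Cut ⌈Λ * XX u j⌉₊ ((1/2) ^ j) c.path

theorem disc (hA : H934F.St_A) {C : ℝ} (hC : 0 < C) (hU : TwoUp C (1/4)) (hR : St_RNG)
    (hG : St_GRD) (hP : St_POL) (hS : St_SML) {u : ℝ} (hu : 1 < u) {δ : ℝ} (hδ : 0 < δ) :
    ∃ Λ : ℝ, 1 ≤ Λ ∧ ∀ n : ℕ, 0 < n → prob n (fun F => ¬ AllCut n u Λ F) ≤ δ := by
  classical
  have hok : Ok (fun _ : Edg => (1/2:ℝ)) := fun _ => ⟨by norm_num, by norm_num⟩
  obtain ⟨K0, hK0⟩ := exists_pow_lt_of_lt_one (show (0:ℝ) < δ / 3 by linarith)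
    (show (1/2:ℝ) < 1 by norm_num)
  set K := K0 + 1 with hK
  have hKd : (1/2:ℝ) ^ K ≤ δ / 3 := by
    rw [hK, pow_succ]
    have : (0:ℝ) ≤ (1/2) ^ K0 := by positivity
    linarith
  have hKpos : 0 < K := by omega
  have hKR : (0:ℝ) < K := by exact_mod_cast hKpos
  set θ : ℝ := 1 / (12 * K) with hθ
  have hθ0 : 0 < θ := by positivity
  obtain ⟨K1, hK1, hex1⟩ := ex_NSL hA θ hθ0
  obtain ⟨K2, hK2, hex2⟩ := ex_NV hC.le hU θ hθ0
  have hSm : Summable fun j : ℕ => ((j:ℝ) + 1) ^ (-u) := by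
    have h1 : Summable fun j : ℕ => ((j:ℝ)) ^ (-u) := Real.summable_nat_rpow.2 (by linarith)
    have h2 := (summable_nat_add_iff 1).2 h1
    refine h2.congr fun j => ?_
    push_cast
    rfl
  have hterm : ∀ j : ℕ, 0 < ((j:ℝ) + 1) ^ (-u) := fun j => by positivity
  set S : ℝ := ∑' j : ℕ, ((j:ℝ) + 1) ^ (-u) with hSd
  have hS1 : 1 ≤ S := by
    have := hSm.le_tsum 0 fun i _ => (hterm i).le
    simpa using this
  set B1 : ℝ := 4 * K1 * 48 ^ (7/4 : ℝ) with hB1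
  have hB10 : 0 < B1 := by positivity
  set Λ1 : ℝ := 3 * B1 * S / δ with hΛ1
  have hΛ10 : 0 < Λ1 := by positivity
  set Λ2 : ℝ := 3 * K2 / δ with hΛ2
  have hΛ20 : 0 < Λ2 := by positivity
  set N0 : ℕ := 16 * K with hN0
  set Λ3 : ℝ := 4 * ((N0:ℝ) + 1) ^ 2 * (2 + (N0:ℝ) + 1) * ((N0:ℝ) + 1) with hΛ3
  have hΛ30 : 0 < Λ3 := by positivity
  set Λ4 : ℝ := 4 * Λ2 * (2 + 120) * 120 with hΛ4
  have hΛ40 : 0 < Λ4 := by positivity
  refine ⟨1 + Λ1 + Λ3 + Λ4, by linarith, fun n hn => ?_⟩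
  have hn1 : (1:ℝ) ≤ n := by exact_mod_cast hn
  have hn0 : (0:ℝ) < n := by linarith
  have hX0 := XX_pos u
  have hX1 : ∀ j, (1:ℝ) ≤ XX u j := fun j => by
    refine le_trans ?_ (XX_ge (by linarith) j)
    exact one_le_pow₀ (Real.one_le_rpow (by norm_num) (by norm_num))
  -- general facts for a tracing path
  have hbasic : ∀ F, F ⊆ edges n → ∀ v c, Largest n F v → IsTrace n F v c →
      (∀ s s', dist (c.path s) (c.path s') ≤ 2) := by
    intro F hF v c hv hc s s'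
    have h1 := (trace_cut hR hG hS hn hF hv.1 hc).1
    exact csq_dist (h1 s) (h1 s')
  by_cases hnN : n < N0
  · -- small boxes
    have hall : ∀ F, F ⊆ edges n → AllCut n u (1 + Λ1 + Λ3 + Λ4) F := by
      intro F hF v c hv hc
      refine ⟨hbasic F hF v c hv hc, fun j => ?_⟩
      obtain ⟨σ, N, hN, hσ, ho, hp, hmin, hpath⟩ := hc
      have hbox : ∀ s, (orb (↑F) σ s).1 ∈ box n := by
        intro s
        apply CPT_box hF hv.1
        rw [mem_cluster] at hσ ⊢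
        exact hσ.trans (pb_reach _ _ _)
      have hNle : (N:ℝ) ≤ 4 * ((n:ℝ) + 1) ^ 2 := by exact_mod_cast period_le hbox hmin
      rw [hpath]
      refine cut_mono_real (cut_fine hS hN (L := 2 / n) (r := (1/2) ^ j) (by positivity)
        (by positivity) (fun j => pt_step2 hn _ _ j)) ?_
      have hnN' : (n:ℝ) + 1 ≤ N0 + 1 := by
        have : (n:ℝ) ≤ N0 := by exact_mod_cast hnN.le
        linarith
      have h1 : (N:ℝ) ≤ (4 * ((N0:ℝ) + 1) ^ 2) * (n:ℝ) ^ (7/4 : ℝ) := by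
        have h2 : (1:ℝ) ≤ (n:ℝ) ^ (7/4 : ℝ) := Real.one_le_rpow hn1 (by norm_num)
        calc (N:ℝ) ≤ 4 * ((n:ℝ) + 1) ^ 2 := hNle
          _ ≤ 4 * ((N0:ℝ) + 1) ^ 2 := by gcongr
          _ ≤ (4 * ((N0:ℝ) + 1) ^ 2) * (n:ℝ) ^ (7/4 : ℝ) :=
              le_mul_of_one_le_right (by positivity) h2
      have h2 : (n:ℝ) ≤ ((N0:ℝ) + 1) * 2 ^ j := by
        have h3 : (1:ℝ) ≤ 2 ^ j := one_le_pow₀ (by norm_num)
        calc (n:ℝ) ≤ (N0:ℝ) + 1 := by linarith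
          _ ≤ ((N0:ℝ) + 1) * 2 ^ j := le_mul_of_one_le_right (by positivity) h3
      have h4 := fine_bound (u := u) hn (A := (N0:ℝ) + 1) (by linarith [(Nat.cast_nonneg N0 : (0:ℝ) ≤ N0)])
        (by positivity) h2 (Nat.cast_nonneg N) h1 (by linarith)
      push_cast
      refine h4.trans ?_
      apply mul_le_mul_of_nonneg_right _ (hX0 j).le
      have : (4 * ((N0:ℝ) + 1) ^ 2) * (2 + ((N0:ℝ) + 1)) * ((N0:ℝ) + 1) = Λ3 := by
        rw [hΛ3]; ring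
      rw [this]
      linarith
    have h0 : prob n (fun F => ¬ AllCut n u (1 + Λ1 + Λ3 + Λ4) F) ≤
        Pr (fun _ => (1/2:ℝ)) (RE 0 n 0 n) (fun _ => ¬ True) :=
      prob_le_of_pr (fun F hF h => absurd (hall F hF) h)
    rw [Pr_not, Pr_true _ (fun _ _ => trivial)] at h0
    linarith
  · rw [not_lt] at hnN
    set L : ℕ := n / (2 * K) with hL
    set m : ℕ := L / 3 with hm
    have hLn : 2 * K * L ≤ n := Nat.mul_div_le n (2 * K)
    have hLn2 : n < 2 * K * (L + 1) := Nat.lt_mul_div_succ n (by omega)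
    have hm1 : 3 * m ≤ L := Nat.mul_div_le L 3
    have hm2 : L < 3 * (m + 1) := Nat.lt_mul_div_succ L (by omega)
    have hL8 : 8 ≤ L := by
      rw [hL]
      rw [Nat.le_div_iff_mul_le (by omega)]
      omega
    have hmpos : 2 ≤ m := by omega
    have hKL : K * (L + 1) ≤ n + 1 := by nlinarith
    have hLnn : L ≤ n := by nlinarith
    have hnm : n ≤ 12 * K * m := by
      have : 2 * K * (L + 1) ≤ 2 * K * (3 * (m + 1)) := by gcongr; omega
      nlinarith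
    have hNB := pr_not_big (n := n) (L := L) (K := K) (by omega) (m := (m:ℤ)) (by omega)
      (by exact_mod_cast hm1) hKL hLnn
    have hθm : θ * n ≤ ((m:ℤ):ℝ) := by
      have h1 : (n:ℝ) ≤ 12 * K * m := by exact_mod_cast hnm
      rw [hθ, div_mul_eq_mul_div, one_mul, div_le_iff₀ (by positivity)]
      push_cast
      linarith
    -- the events
    set J : Finset ℕ := (Finset.range n).filter (fun j => 5 ≤ n / (24 * 2 ^ j)) with hJ
    have hdet : ∀ F, F ⊆ edges n → ¬ AllCut n u (1 + Λ1 + Λ3 + Λ4) F →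
        ¬ Big n m (↑F : Set Edg) ∨ (Λ2 * (n:ℝ) ^ (7/4 : ℝ) ≤ NV n m F ∨
          ∃ j ∈ J, Λ1 * XX u j ≤ (N4L n (n / (24 * 2 ^ j)) m F : ℝ)) := by
      intro F hF hnot
      by_contra hcon
      push Not at hcon
      obtain ⟨hbig, hNV, hN4⟩ := hcon
      apply hnot
      intro v c hv hc
      refine ⟨hbasic F hF v c hv hc, fun j => ?_⟩
      obtain ⟨σ, N, hN, hσ, ho, hp, hmin, hpath⟩ := hc
      have hbox : ∀ s, (orb (↑F) σ s).1 ∈ box n := by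
        intro s
        apply CPT_box hF hv.1
        rw [mem_cluster] at hσ ⊢
        exact hσ.trans (pb_reach _ _ _)
      have hbox' : ∀ s, H974.inR 0 n 0 n (orb (↑F) σ s).1 := by
        intro s
        have := hbox s
        unfold Plain.box at this
        rw [Finset.mem_product, Finset.mem_Icc, Finset.mem_Icc] at this
        exact this
      have hW : Wide m (↑F : Set Edg) v := wide_of (isMax_of_largest hv) hbig
      have hT : ∀ s, TwA n 0 0 m F (orb (↑F : Set Edg) σ s).1 := by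
        intro s
        have h1 := RNG_state hσ ho s
        exact twA_trace hW ((mem_cluster _ _ _).1 h1.1) (RNG_inc _) ((outer_iff _ _ _).1 h1.2)
      rw [hpath]
      by_cases hj : 5 ≤ n / (24 * 2 ^ j)
      · -- coarse scales
        set a := n / (24 * 2 ^ j) with ha
        have ha24 : 24 * 2 ^ j * a ≤ n := Nat.mul_div_le n (24 * 2 ^ j)
        have hjn : j ∈ J := by
          rw [hJ, Finset.mem_filter, Finset.mem_range]
          refine ⟨?_, hj⟩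
          have h1 : j < 2 ^ j := Nat.lt_two_pow_self
          nlinarith
        have h1 := cut_main hP n a m F σ N hn (by omega) hbox' hN hp hmin hT
        have h2 : (12 * (a:ℝ) + 6) / n ≤ (1/2) ^ j := by
          have h3 : (24:ℝ) * 2 ^ j * a ≤ n := by exact_mod_cast ha24
          have h4 : (5:ℝ) ≤ a := by exact_mod_cast hj
          rw [div_le_iff₀ hn0, one_div, inv_pow]
          have h5 : (0:ℝ) < 2 ^ j := by positivity
          rw [inv_mul_eq_div, le_div_iff₀ h5]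
          nlinarith
        refine cut_mono_real (h1.mono le_rfl h2) ?_
        have h3 := hN4 j hjn
        push_cast
        have h4 := hX1 j
        have h5 := mul_pos hΛ30 (hX0 j)
        have h6 := mul_pos hΛ40 (hX0 j)
        nlinarith
      · -- fine scales
        push Not at hj
        refine cut_mono_real (cut_fine hS hN (L := 2 / n) (r := (1/2) ^ j) (by positivity)
          (by positivity) (fun j => pt_step2 hn _ _ j)) ?_
        have h1 : (N:ℝ) ≤ (4 * Λ2) * (n:ℝ) ^ (7/4 : ℝ) := by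
          have h2 := steps_le hbox' hmin hT
          nlinarith
        have h2 : (n:ℝ) ≤ 120 * 2 ^ j := by
          have h3 : n < 5 * (24 * 2 ^ j) := (Nat.div_lt_iff_lt_mul (by positivity)).1 hj
          have h4 : n ≤ 120 * 2 ^ j := by omega
          exact_mod_cast h4
        have h4 := fine_bound (u := u) hn (A := 120) (by norm_num)
          (by positivity) h2 (Nat.cast_nonneg N) h1 (by linarith)
        push_cast
        refine h4.trans ?_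
        apply mul_le_mul_of_nonneg_right _ (hX0 j).le
        have : (4 * Λ2) * (2 + 120) * 120 = Λ4 := by rw [hΛ4]
        rw [this]
        linarith
    have h1 : prob n (fun F => ¬ AllCut n u (1 + Λ1 + Λ3 + Λ4) F) ≤
        Pr (fun _ => (1/2:ℝ)) (RE 0 n 0 n) (fun F => ¬ Big n m (↑F : Set Edg) ∨
          (Λ2 * (n:ℝ) ^ (7/4 : ℝ) ≤ NV n m F ∨
          ∃ j ∈ J, Λ1 * XX u j ≤ (N4L n (n / (24 * 2 ^ j)) m F : ℝ))) := prob_le_of_pr hdet
    have h2 := Pr_or_le hok (RE 0 n 0 n) (fun F => ¬ Big n m (↑F : Set Edg))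
      (fun F => Λ2 * (n:ℝ) ^ (7/4 : ℝ) ≤ NV n m F ∨
          ∃ j ∈ J, Λ1 * XX u j ≤ (N4L n (n / (24 * 2 ^ j)) m F : ℝ))
    have h3 := Pr_or_le hok (RE 0 n 0 n) (fun F => Λ2 * (n:ℝ) ^ (7/4 : ℝ) ≤ NV n m F)
      (fun F => ∃ j ∈ J, Λ1 * XX u j ≤ (N4L n (n / (24 * 2 ^ j)) m F : ℝ))
    have hn74 : 0 < (n:ℝ) ^ (7/4 : ℝ) := by positivity
    have h4 : Pr (fun _ => (1/2:ℝ)) (RE 0 n 0 n) (fun F => Λ2 * (n:ℝ) ^ (7/4 : ℝ) ≤ NV n m F) ≤
        δ / 3 := by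
      refine (markov (X := fun F => NV n m F) (fun F => Finset.sum_nonneg fun _ _ => ind_nonneg _)
        (by positivity)).trans ?_
      have h5 := hex2 n m (by omega) hθm
      rw [div_le_iff₀ (by positivity)]
      refine h5.trans (le_of_eq ?_)
      rw [hΛ2]
      field_simp
    have h5 : Pr (fun _ => (1/2:ℝ)) (RE 0 n 0 n)
        (fun F => ∃ j ∈ J, Λ1 * XX u j ≤ (N4L n (n / (24 * 2 ^ j)) m F : ℝ)) ≤ δ / 3 := by
      refine (Pr_exists_le hok _ _ _).trans ?_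
      have hone : ∀ j ∈ J, Pr (fun _ => (1/2:ℝ)) (RE 0 n 0 n)
          (fun F => Λ1 * XX u j ≤ (N4L n (n / (24 * 2 ^ j)) m F : ℝ)) ≤
          δ / (3 * S) * ((j:ℝ) + 1) ^ (-u) := by
        intro j hj
        rw [hJ, Finset.mem_filter] at hj
        obtain ⟨-, hj⟩ := hj
        have hXj := hX0 j
        refine (markov (X := fun F => (N4L n (n / (24 * 2 ^ j)) m F : ℝ))
          (fun F => Nat.cast_nonneg _) (by positivity)).trans ?_
        have h6 := ex_N4L (n := n) (H := m) hex1 hj (Nat.div_le_self _ _) hθm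
        set a := n / (24 * 2 ^ j) with ha
        have haR : (5:ℝ) ≤ a := by exact_mod_cast hj
        have h7 : (n:ℝ) / a ≤ 48 * 2 ^ j := by
          rw [div_le_iff₀ (by linarith)]
          have h8 : n < 24 * 2 ^ j * (a + 1) := Nat.lt_mul_div_succ n (by positivity)
          have h9 : (n:ℝ) ≤ 24 * 2 ^ j * (a + 1) := by exact_mod_cast h8.le
          have h10 : (0:ℝ) < 2 ^ j := by positivity
          nlinarith
        have h8 : ((n:ℝ) / a) ^ (7/4 : ℝ) ≤ 48 ^ (7/4 : ℝ) * ((2:ℝ) ^ (7/4 : ℝ)) ^ j := by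
          rw [← two_pow_rpow, ← Real.mul_rpow (by norm_num) (by positivity)]
          exact Real.rpow_le_rpow (by positivity) h7 (by norm_num)
        rw [div_le_iff₀ (by positivity)]
        have h9 : ((j:ℝ) + 1) ^ (-u) * ((j:ℝ) + 1) ^ u = 1 := by
          rw [← Real.rpow_add (by positivity)]
          simp
        calc Ex (fun _ => (1/2:ℝ)) (RE 0 n 0 n) (fun F => (N4L n a m F : ℝ))
            ≤ 4 * K1 * ((n:ℝ) / a) ^ (7/4 : ℝ) := h6
          _ ≤ 4 * K1 * (48 ^ (7/4 : ℝ) * ((2:ℝ) ^ (7/4 : ℝ)) ^ j) := by gcongr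
          _ = B1 * ((2:ℝ) ^ (7/4 : ℝ)) ^ j := by rw [hB1]; ring
          _ = (B1 * ((2:ℝ) ^ (7/4 : ℝ)) ^ j) * (((j:ℝ) + 1) ^ (-u) * ((j:ℝ) + 1) ^ u) := by
              rw [h9, mul_one]
          _ = δ / (3 * S) * ((j:ℝ) + 1) ^ (-u) * (Λ1 * XX u j) := by
              unfold XX
              rw [hΛ1]
              field_simp
      refine (Finset.sum_le_sum hone).trans ?_
      rw [← Finset.mul_sum]
      have h6 : ∑ j ∈ J, ((j:ℝ) + 1) ^ (-u) ≤ S := hSm.sum_le_tsum J fun i _ => (hterm i).le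
      calc δ / (3 * S) * ∑ j ∈ J, ((j:ℝ) + 1) ^ (-u) ≤ δ / (3 * S) * S := by gcongr
        _ = δ / 3 := by
            field_simp
    linarith

end Pool.Agent.V5helper99.HR
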