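import Pool.Agent.V5helper99.HR.Cut
import Pool.Agent.H342R3.Tig.Fin
import Pool.Agent.H342R3.Tig.SML

/-!
# The tracing path: two arms at its vertices, number of its steps
-/

set_option autoImplicit false
set_option maxHeartbeats 4000000

namespace Pool.Agent.V5helper99.HR

open H974 H342P H342P.Plain H342L H984P Finset H342T

/-- The cluster of `v` leaves all boxes of radius at most `m`. -/
def Wide (m : ℤ) (F : Set Edg) (v : Vtx) : Prop :=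
  ∀ (u : Vtx) (k : ℤ), k ≤ m → ∃ w, Reach F v w ∧ FarF u k w

theorem wide_of {n : ℕ} {m : ℤ} {F : Set Edg} {v : Vtx} (hm : IsMax n F v)
    (hb : Big n m F) : Wide m F v := by
  obtain ⟨a, b, ha, hb', hmax⟩ := hm
  obtain ⟨c, d, hc, hd, hcd, h8⟩ := hb
  have h8' : 8 * m ^ 2 ≤ dsq a b := h8.trans (hmax c d hc hd hcd)
  intro u k hk
  by_contra hcon
  push Not at hcon
  have h1 := hcon a ha
  have h2 := hcon b hb'
  have h3 := dsq_lt h1 h2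
  have h4 : 0 < k := by
    unfold FarF at h1
    rw [not_not] at h1
    unfold inF at h1
    omega
  nlinarith

theorem twA_trace {n : ℕ} {F : Finset Edg} {v : Vtx} {H : ℤ} (hW : Wide H (↑F : Set Edg) v)
    {u f : Vtx} (hu : Reach (↑F : Set Edg) v u) (hf : Inc u f)
    (ho : H342P.Outer (↑F : Set Edg) v f) : TwA n 0 0 H F u := by
  intro h h1 h2 h3 h4 h5 h6
  obtain ⟨w, hw, hw2⟩ := hW u h h2
  refine ⟨f, hf, ⟨w, far_of_not_inF hw2, hu.symm.trans hw⟩, ?_⟩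
  by_contra hcon
  have hD : ∀ g, DReach (↑F : Set Edg)ᶜ f g → inF (u.1 - h) (u.1 + h) (u.2 - h)
      (u.2 + h) g := by
    intro g hg
    by_contra h
    exact hcon ⟨g, h, hg⟩
  refine hw2 (outer_arm hD (g := (-1, -1)) ?_ ho hu hf hw)
  unfold inF
  simp only
  omega

/-- The vertices with two arms. -/
noncomputable def NV (n : ℕ) (H : ℤ) (F : Finset Edg) : ℝ :=
  ∑ u ∈ Finset.Icc (0:ℤ) n ×ˢ Finset.Icc (0:ℤ) n, ind (TwA n 0 0 H F u)

theorem pr_tw_le {C : ℝ} (hC : 0 ≤ C) (hU : TwoUp C (1/4)) {n : ℕ} {u : Vtx} {k H : ℤ} (hkH : k ≤ H)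
    (hk : k ≤ bdist n u) :
    Pr (fun _ => (1/2:ℝ)) (RE 0 n 0 n) (fun F => TwA n 0 0 H F u) ≤ ph (4 * C) (1/4) k := by
  have hok : Ok (fun _ : Edg => (1/2:ℝ)) := fun _ => ⟨by norm_num, by norm_num⟩
  by_cases h0 : k ≤ 0
  · unfold ph
    rw [if_pos h0]
    exact Pr_le_one hok _ _
  push Not at h0
  obtain ⟨h, hh⟩ : ∃ h : ℕ, (h : ℤ) = k := ⟨k.toNat, Int.toNat_of_nonneg (by omega)⟩
  have hb := hk
  unfold bdist at hb
  rw [le_min_iff, le_min_iff, le_min_iff] at hb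
  have h1 : Pr (fun _ => (1/2:ℝ)) (RE 0 n 0 n) (fun F => TwA n 0 0 H F u) ≤
      Pr (fun _ => (1/2:ℝ)) (RE 0 n 0 n) (fun F => ∃ f ∈ ({(u.1, u.2), (u.1 - 1, u.2),
        (u.1, u.2 - 1), (u.1 - 1, u.2 - 1)} : Finset Vtx), Inc u f ∧ Two u f k (↑F)) := by
    apply Pr_mono hok
    intro F _ hF
    obtain ⟨f, hf, h2⟩ := hF h (by omega) (by omega) (by omega) (by omega) (by omega) (by omega)
    rw [hh] at h2
    refine ⟨f, ?_, hf, h2⟩
    obtain ⟨f1, f2⟩ := f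
    unfold Inc at hf
    simp only at hf
    simp only [Finset.mem_insert, Finset.mem_singleton, Prod.mk.injEq]
    omega
  refine h1.trans ((Pr_exists_le hok _ _ _).trans ?_)
  have h2 : ∀ f ∈ ({(u.1, u.2), (u.1 - 1, u.2),
        (u.1, u.2 - 1), (u.1 - 1, u.2 - 1)} : Finset Vtx),
      Pr (fun _ => (1/2:ℝ)) (RE 0 n 0 n) (fun F => Inc u f ∧ Two u f k (↑F)) ≤ ph C (1/4) k := by
    intro f _
    by_cases hf : Inc u f
    · refine le_trans (Pr_mono hok (fun F _ hF => hF.2)) (pr_two_le hU hf hk)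
    · refine le_trans (Pr_mono hok (B := fun _ => False) (fun F _ hF => hf hF.1)) ?_
      have h3 : Pr (fun _ => (1/2:ℝ)) (RE 0 n 0 n) (fun _ : Finset Edg => False) = 0 := by
        unfold Pr
        rw [Ex_congr (g := fun _ => 0) (fun F _ => ind_not_of (by simp)), Ex_const]
      rw [h3]
      exact ph_nonneg hC k
  refine (Finset.sum_le_card_nsmul _ _ _ h2).trans ?_
  have h3 : ({(u.1, u.2), (u.1 - 1, u.2), (u.1, u.2 - 1), (u.1 - 1, u.2 - 1)} : Finset Vtx).card ≤ 4 :=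
    Finset.card_le_four
  have h4 := ph_nonneg (C := C) (s := 1/4) hC k
  rw [nsmul_eq_mul]
  have h5 : ((({(u.1, u.2), (u.1 - 1, u.2), (u.1, u.2 - 1), (u.1 - 1, u.2 - 1)} :
      Finset Vtx).card : ℕ) : ℝ) ≤ 4 := by exact_mod_cast h3
  calc _ ≤ 4 * ph C (1/4) k := mul_le_mul_of_nonneg_right h5 h4
    _ = ph (4 * C) (1/4) k := by
        unfold ph
        rw [if_neg (by omega), if_neg (by omega)]
        ring

theorem ex_NV {C : ℝ} (hC : 0 ≤ C) (hU : TwoUp C (1/4)) (θ : ℝ) (hθ : 0 < θ) : ∃ K : ℝ, 0 < K ∧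
    ∀ (n : ℕ) (H : ℤ), 1 ≤ n → θ * n ≤ H →
      Ex (fun _ => (1/2:ℝ)) (RE 0 n 0 n) (fun F => NV n H F) ≤ K * (n:ℝ) ^ (7/4 : ℝ) := by
  have hok : Ok (fun _ : Edg => (1/2:ℝ)) := fun _ => ⟨by norm_num, by norm_num⟩
  have hC' : 0 ≤ 4 * C := by linarith
  refine ⟨4 * (4 * C) * θ ^ (-(1/4) : ℝ) + 8 * (1 + 4 * C * (4 / 3)) + 1, by positivity, ?_⟩
  intro n H hn hH
  have hn1 : (1:ℝ) ≤ n := by exact_mod_cast hn
  have hH0 : 0 < H := by
    have : (0:ℝ) < H := lt_of_lt_of_le (by positivity) hH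
    exact_mod_cast this
  have h1 : Ex (fun _ => (1/2:ℝ)) (RE 0 n 0 n) (fun F => NV n H F) ≤
      ∑ u ∈ Finset.Icc (0:ℤ) n ×ˢ Finset.Icc (0:ℤ) n, (ph (4 * C) (1/4) H +
        (ph (4 * C) (1/4) u.1 + ph (4 * C) (1/4) (n - u.1) +
        (ph (4 * C) (1/4) u.2 + ph (4 * C) (1/4) (n - u.2)))) := by
    unfold NV
    rw [Ex_sum]
    apply Finset.sum_le_sum
    intro u _
    exact (pr_tw_le hC hU (min_le_left H (bdist n u)) (min_le_right _ _)).trans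
      (ph_min (s := 1/4) hC' n H u)
  refine h1.trans ?_
  rw [Finset.sum_product]
  have hc : (Finset.Icc (0:ℤ) n).card = n + 1 := by
    rw [Int.card_Icc]; omega
  simp_rw [Finset.sum_add_distrib, Finset.sum_const, hc, sum_refl n (ph (4 * C) (1/4))]
  simp_rw [nsmul_eq_mul]
  have hr : ∑ x ∈ Finset.Icc (0:ℤ) n, ((n + 1 : ℕ) : ℝ) * ph (4 * C) (1/4) (n - x) =
      ((n + 1 : ℕ) : ℝ) * ∑ x ∈ Finset.Icc (0:ℤ) n, ph (4 * C) (1/4) x := by
    rw [← Finset.mul_sum, sum_refl n (ph (4 * C) (1/4))]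
  have hr2 : ∑ x ∈ Finset.Icc (0:ℤ) n, ((n + 1 : ℕ) : ℝ) * ph (4 * C) (1/4) x =
      ((n + 1 : ℕ) : ℝ) * ∑ x ∈ Finset.Icc (0:ℤ) n, ph (4 * C) (1/4) x := by
    rw [← Finset.mul_sum]
  simp only [hr, hr2]
  have hs := sum_ph_le (C := 4 * C) (s := 1/4) hC' (by norm_num) (by norm_num) n
  have hS0 : 0 ≤ ∑ x ∈ Finset.Icc (0:ℤ) n, ph (4 * C) (1/4) x :=
    Finset.sum_nonneg fun x _ => ph_nonneg hC' x
  set S := ∑ x ∈ Finset.Icc (0:ℤ) n, ph (4 * C) (1/4) x with hS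
  have e1 : (1:ℝ) - 1/4 = 3/4 := by norm_num
  rw [e1] at hs
  have hS1 : S ≤ (1 + 4 * C * (4 / 3)) * (n:ℝ) ^ (3/4 : ℝ) := by
    have h2 : 1 ≤ (n:ℝ) ^ (3/4 : ℝ) := Real.one_le_rpow hn1 (by norm_num)
    calc S ≤ 1 + 4 * C * ((n:ℝ) ^ (3/4 : ℝ) / (3/4)) := hs
      _ ≤ 1 * (n:ℝ) ^ (3/4 : ℝ) + 4 * C * ((n:ℝ) ^ (3/4 : ℝ) / (3/4)) := by linarith
      _ = _ := by ring
  have hH1 : ph (4 * C) (1/4) H ≤ 4 * C * (θ ^ (-(1/4) : ℝ) * (n:ℝ) ^ (-(1/4) : ℝ)) := by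
    unfold ph
    rw [if_neg (by omega), ← Real.mul_rpow hθ.le (by positivity)]
    apply mul_le_mul_of_nonneg_left _ hC'
    exact Real.rpow_le_rpow_of_nonpos (by positivity) hH (by norm_num)
  have e2 : (n:ℝ) ^ 2 * (n:ℝ) ^ (-(1/4) : ℝ) = (n:ℝ) ^ (7/4 : ℝ) := by
    rw [← Real.rpow_natCast (n:ℝ) 2, ← Real.rpow_add (by linarith)]
    norm_num
  have e3 : (n:ℝ) * (n:ℝ) ^ (3/4 : ℝ) = (n:ℝ) ^ (7/4 : ℝ) := by
    nth_rewrite 1 [← Real.rpow_one (n:ℝ)]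
    rw [← Real.rpow_add (by linarith)]
    norm_num
  have hph0 := ph_nonneg (C := 4 * C) (s := 1/4) hC' H
  have h7 : 0 ≤ (n:ℝ) ^ (7/4 : ℝ) := by positivity
  have t1 : ((n + 1 : ℕ) : ℝ) * (((n + 1 : ℕ) : ℝ) * ph (4 * C) (1/4) H) ≤
      4 * (4 * C) * θ ^ (-(1/4) : ℝ) * (n:ℝ) ^ (7/4 : ℝ) := by
    have h2 : ((n + 1 : ℕ) : ℝ) ≤ 2 * n := by push_cast; linarith
    have h3 : (0:ℝ) ≤ ((n + 1 : ℕ) : ℝ) := by positivity
    calc ((n + 1 : ℕ) : ℝ) * (((n + 1 : ℕ) : ℝ) * ph (4 * C) (1/4) H)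
        ≤ (2 * n) * ((2 * n) * ph (4 * C) (1/4) H) := by gcongr
      _ = 4 * (n:ℝ) ^ 2 * ph (4 * C) (1/4) H := by ring
      _ ≤ 4 * (n:ℝ) ^ 2 * (4 * C * (θ ^ (-(1/4) : ℝ) * (n:ℝ) ^ (-(1/4) : ℝ))) :=
          mul_le_mul_of_nonneg_left hH1 (by positivity)
      _ = 4 * (4 * C) * θ ^ (-(1/4) : ℝ) * ((n:ℝ) ^ 2 * (n:ℝ) ^ (-(1/4) : ℝ)) := by ring
      _ = _ := by rw [e2]
  have t2 : ((n + 1 : ℕ) : ℝ) * S ≤ 2 * (1 + 4 * C * (4 / 3)) * (n:ℝ) ^ (7/4 : ℝ) := by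
    have h2 : ((n + 1 : ℕ) : ℝ) ≤ 2 * n := by push_cast; linarith
    calc ((n + 1 : ℕ) : ℝ) * S ≤ (2 * n) * ((1 + 4 * C * (4 / 3)) * (n:ℝ) ^ (3/4 : ℝ)) := by gcongr
      _ = 2 * (1 + 4 * C * (4 / 3)) * (n * (n:ℝ) ^ (3/4 : ℝ)) := by ring
      _ = _ := by rw [e3]
  linarith

/-- The number of the steps of the tracing path. -/
theorem steps_le {n : ℕ} {H : ℤ} {F : Finset Edg} {σ : St} {N : ℕ}
    (hbox : ∀ s, H974.inR 0 n 0 n (orb (↑F : Set Edg) σ s).1)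
    (h2 : ∀ j, 0 < j → j < N → orb (↑F : Set Edg) σ j ≠ σ)
    (hT : ∀ u, TwA n 0 0 H F (orb (↑F : Set Edg) σ u).1) : (N : ℝ) ≤ 4 * NV n H F := by
  classical
  have h3 : (Finset.range N).card ≤ (((Finset.Icc (0:ℤ) n ×ˢ Finset.Icc (0:ℤ) n).filter
      (fun u => TwA n 0 0 H F u)) ×ˢ (Finset.univ : Finset Q4)).card := by
    apply Finset.card_le_card_of_injOn (fun j => orb (↑F : Set Edg) σ j)
    · intro j _
      simp only [Finset.coe_product, Set.mem_prod, Finset.mem_coe, Finset.mem_univ, and_true,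
        Finset.mem_filter]
      refine ⟨?_, hT j⟩
      have := hbox j
      unfold inR at this
      rw [Finset.mem_product, Finset.mem_Icc, Finset.mem_Icc]
      exact this
    · intro i hi j hj hij
      exact orb_inj h2 (Finset.mem_range.mp (Finset.mem_coe.mp hi))
        (Finset.mem_range.mp (Finset.mem_coe.mp hj)) hij
  rw [Finset.card_range, Finset.card_product] at h3
  have h5 : (Finset.univ : Finset Q4).card = 4 := rfl
  rw [h5] at h3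
  have h4 : ((((Finset.Icc (0:ℤ) n ×ˢ Finset.Icc (0:ℤ) n).filter
      (fun u => TwA n 0 0 H F u)).card : ℕ) : ℝ) = NV n H F := by
    unfold NV
    rw [Finset.card_filter]
    push_cast
    refine Finset.sum_congr rfl fun x _ => ?_
    by_cases h : TwA n 0 0 H F x
    · rw [ind_of h, if_pos h]
    · rw [ind_not_of h, if_neg h]
  rw [← h4]
  calc (N:ℝ) ≤ ((((Finset.Icc (0:ℤ) n ×ˢ Finset.Icc (0:ℤ) n).filter
      (fun u => TwA n 0 0 H F u)).card * 4 : ℕ) : ℝ) := by exact_mod_cast h3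
    _ = _ := by push_cast; ring

theorem poly_smul (c : ℂ) (f : ℕ → ℂ) (N : ℕ) (t : unitInterval) :
    poly (fun j => c * f j) N t = c * poly f N t := by
  show c * f 0 + ∑ j ∈ Finset.range N,
    ((max 0 (min 1 ((N : ℝ) * (t : ℝ) - j)) : ℝ) : ℂ) * (c * f (j + 1) - c * f j) =
    c * (f 0 + ∑ j ∈ Finset.range N,
      ((max 0 (min 1 ((N : ℝ) * (t : ℝ) - j)) : ℝ) : ℂ) * (f (j + 1) - f j))
  rw [mul_add, Finset.mul_sum]
  congr 1
  refine Finset.sum_congr rfl fun j _ => ?_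
  ring

theorem cut_fine (hS : St_SML) {f : ℕ → ℂ} {N : ℕ} {L r : ℝ} (hN : 0 < N) (hL : 0 < L) (hr : 0 < r)
    (hf : ∀ j, dist (f j) (f (j + 1)) ≤ L) : Cut (N * ⌈L / r⌉₊) r (poly f N) := by
  have hL' : ((L⁻¹ : ℝ) : ℂ) ≠ 0 := by
    rw [Complex.ofReal_ne_zero]
    positivity
  have h1 := hS (fun j => ((L⁻¹ : ℝ) : ℂ) * f j) N (r / L) hN (by positivity) (by
    intro j
    rw [dist_eq_norm, ← mul_sub, norm_mul, Complex.norm_real, Real.norm_eq_abs,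
      abs_of_pos (by positivity), ← dist_eq_norm]
    calc L⁻¹ * dist (f j) (f (j + 1)) ≤ L⁻¹ * L := by
          apply mul_le_mul_of_nonneg_left (hf j) (by positivity)
      _ = 1 := inv_mul_cancel₀ hL.ne')
  rw [one_div_div] at h1
  obtain ⟨k, t, a1, a2, a3, a4, a5, a6⟩ := h1
  refine ⟨k, t, a1, a2, a3, a4, a5, fun i hi s s' b1 b2 b3 b4 => ?_⟩
  have h2 := a6 i hi s s' b1 b2 b3 b4
  rw [poly_smul, poly_smul, dist_eq_norm, ← mul_sub, norm_mul, Complex.norm_real, Real.norm_eq_abs,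
      abs_of_pos (by positivity), ← dist_eq_norm, ← div_eq_inv_mul] at h2
  rw [div_le_div_iff_of_pos_right hL] at h2
  exact h2

theorem pt_step2 {n : ℕ} (hn : 0 < n) (F : Set Edg) (σ : St) (j : ℕ) :
    dist (pt n (orb F σ j).1) (pt n (orb F σ (j + 1)).1) ≤ 2 / n := by
  have hn' : (0:ℝ) < n := by exact_mod_cast hn
  have h := nxt_fst F (orb F σ j)
  rw [← orb_succ] at h
  set u := (orb F σ (j + 1)).1
  set w := (orb F σ j).1
  rw [dist_eq_norm]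
  refine (Complex.norm_le_abs_re_add_abs_im _).trans ?_
  have e1 : (pt n w - pt n u).re = -(((u.1 - w.1 : ℤ) : ℝ) / n) := by
    unfold pt
    rw [Complex.sub_re]
    push_cast
    ring
  have e2 : (pt n w - pt n u).im = -(((u.2 - w.2 : ℤ) : ℝ) / n) := by
    unfold pt
    rw [Complex.sub_im]
    push_cast
    ring
  rw [e1, e2, abs_neg, abs_neg, abs_div, abs_div, Nat.abs_cast, ← Int.cast_abs, ← Int.cast_abs,
    ← add_div]
  apply div_le_div_of_nonneg_right _ hn'.le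
  have h1 : ((|u.1 - w.1| : ℤ) : ℝ) ≤ 1 := by exact_mod_cast h.1
  have h2 : ((|u.2 - w.2| : ℤ) : ℝ) ≤ 1 := by exact_mod_cast h.2
  linarith

end Pool.Agent.V5helper99.HR
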